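import Pool.Agent.H42.PF.Greedy

namespace H42PF

variable {α : Type*} [DecidableEq α]

noncomputable def gw (κ : ℝ) (p n : ℕ) : ℝ :=
  if hh κ p ≤ 2 * n then (1/2 : ℝ) ^ (hh κ p - n) else 0

noncomputable def dw (κ : ℝ) (p n : ℕ) : ℝ :=
  if hh κ p ≤ 4 * n then (4/κ) / p else 0

noncomputable def EE (κ : ℝ) (p n : ℕ) : ℝ :=
  ∑ i ∈ Finset.range n, (dw κ p (i+1) - gw κ p (i+1))

noncomputable def Sg (κ : ℝ) (p : ℕ) : List α → ℝ
  | [] => 0
  | (a :: l) => gw κ p (lam (a :: l) p) + Sg κ p l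

noncomputable def Sd (κ : ℝ) (p : ℕ) : List α → ℝ
  | [] => 0
  | (a :: l) => dw κ p (lam (a :: l) p) + Sd κ p l

lemma gw_nonneg (κ : ℝ) (p n : ℕ) : 0 ≤ gw κ p n := by
  unfold gw; split_ifs <;> positivity

lemma dw_nonneg {κ : ℝ} (hκ : 0 < κ) (p n : ℕ) : 0 ≤ dw κ p n := by
  unfold dw; split_ifs <;> positivity

lemma count_bound (h n : ℕ) :
    (n:ℝ) - h/4 ≤ ∑ i ∈ Finset.range n, (if h ≤ 4 * (i+1) then (1:ℝ) else 0) := by
  induction n with
  | zero => simp; positivity
  | succ n ih =>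
    rw [Finset.sum_range_succ]
    split_ifs with h1
    · push_cast; linarith
    · have h2 : ((4 * (n+1) : ℕ) : ℝ) < h := by exact_mod_cast (by omega : 4 * (n+1) < h)
      push_cast at h2
      have h3 : (0:ℝ) ≤ ∑ i ∈ Finset.range n, (if h ≤ 4 * (i+1) then (1:ℝ) else 0) := by
        apply Finset.sum_nonneg; intro i _; split_ifs <;> norm_num
      push_cast; linarith

lemma gsum_bound (h n : ℕ) (hn : n ≤ h) :
    ∑ i ∈ Finset.range n, (1/2:ℝ) ^ (h - (i+1)) ≤ 2 * (1/2:ℝ) ^ (h - n) := by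
  induction n with
  | zero => simp
  | succ n ih =>
    rw [Finset.sum_range_succ]
    have h1 := ih (by omega)
    have h2 : h - n = (h - (n+1)) + 1 := by omega
    rw [h2, pow_succ] at h1
    linarith

lemma EE_nonneg {κ : ℝ} (hκ : 0 < κ) {p n : ℕ} (hp : 1 ≤ p) (hn : n < hh κ p) :
    0 ≤ EE κ p n := by
  unfold EE
  by_cases h2 : hh κ p ≤ 2 * n
  · rw [Finset.sum_sub_distrib]
    have hg : ∑ i ∈ Finset.range n, gw κ p (i+1) ≤ 1 := by
      have h3 : ∑ i ∈ Finset.range n, gw κ p (i+1) ≤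
          ∑ i ∈ Finset.range n, (1/2:ℝ) ^ (hh κ p - (i+1)) := by
        apply Finset.sum_le_sum
        intro i _
        unfold gw
        split_ifs
        · exact le_rfl
        · positivity
      have h4 := gsum_bound (hh κ p) n hn.le
      have h5 : (1/2:ℝ) ^ (hh κ p - n) ≤ 1/2 := by
        have : hh κ p - n = (hh κ p - n - 1) + 1 := by omega
        rw [this, pow_succ]
        have h6 : (1/2:ℝ) ^ (hh κ p - n - 1) ≤ 1 := pow_le_one₀ (by norm_num) (by norm_num)
        linarith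
      linarith
    have hd : 1 ≤ ∑ i ∈ Finset.range n, dw κ p (i+1) := by
      have h3 : ∑ i ∈ Finset.range n, dw κ p (i+1) =
          ((4/κ) / p) * ∑ i ∈ Finset.range n, (if hh κ p ≤ 4 * (i+1) then (1:ℝ) else 0) := by
        rw [Finset.mul_sum]
        apply Finset.sum_congr rfl
        intro i _
        unfold dw
        split_ifs <;> simp
      rw [h3]
      have h4 := count_bound (hh κ p) n
      have h5 := le_hh κ p
      have h6 : (hh κ p : ℝ) ≤ 2 * n := by exact_mod_cast h2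
      have hp' : (1:ℝ) ≤ p := by exact_mod_cast hp
      have h7 : κ * p / 4 ≤ ∑ i ∈ Finset.range n, (if hh κ p ≤ 4 * (i+1) then (1:ℝ) else 0) := by
        linarith
      have h8 : ((4/κ) / p) * (κ * p / 4) = 1 := by
        field_simp
      calc (1:ℝ) = ((4/κ) / p) * (κ * p / 4) := h8.symm
        _ ≤ _ := by
          apply mul_le_mul_of_nonneg_left h7
          positivity
    linarith
  · apply Finset.sum_nonneg
    intro i hi
    rw [Finset.mem_range] at hi
    have h3 : gw κ p (i+1) = 0 := by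
      unfold gw
      rw [if_neg]
      omega
    rw [h3]
    have := dw_nonneg hκ p (i+1)
    linarith

lemma key {κ : ℝ} (hκ : 0 < κ) {p : ℕ} (hp : 1 ≤ p) (l : List α) (hl : KF κ l) :
    EE κ p (lam l p) ≤ Sd κ p l - Sg κ p l := by
  induction l with
  | nil => simp [lam_nil, EE, Sd, Sg]
  | cons a l ih =>
    have h1 := ih hl.1
    have h2 := KF_lam hκ hl.1 hp
    have h3 := hh_pos hκ hp
    simp only [Sd, Sg]
    rw [lam_cons]
    split_ifs with h4
    · unfold EE at h1 ⊢
      rw [Finset.sum_range_succ]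
      linarith
    · have h5 : dw κ p 0 = 0 := by
        unfold dw; rw [if_neg]; omega
      have h6 : gw κ p 0 = 0 := by
        unfold gw; rw [if_neg]; omega
      rw [h5, h6]
      have h7 := EE_nonneg hκ hp h2
      have h8 : EE κ p 0 = 0 := by simp [EE]
      linarith

lemma Sg_le_Sd {κ : ℝ} (hκ : 0 < κ) {p : ℕ} (hp : 1 ≤ p) (l : List α) (hl : KF κ l) :
    Sg κ p l ≤ Sd κ p l := by
  have h1 := key hκ hp l hl
  have h2 := EE_nonneg hκ hp (KF_lam hκ hl hp)
  linarith

lemma spaced_sum (S : Finset ℕ) : ∀ m : ℝ, 0 < m → (∀ p ∈ S, m ≤ (p:ℝ)) →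
    (∀ p ∈ S, ∀ q ∈ S, p < q → 5 * p ≤ 4 * q) → ∑ p ∈ S, (1:ℝ) / p ≤ 5 / m := by
  induction S using Finset.induction_on_min with
  | empty => intro m hm _ _; simp; positivity
  | insert a s ha ih =>
    intro m hm h1 h2
    have hnot : a ∉ s := fun h => lt_irrefl _ (ha a h)
    rw [Finset.sum_insert hnot]
    have h3 : m ≤ a := h1 a (Finset.mem_insert_self _ _)
    have ha0 : (0:ℝ) < a := by linarith
    have h4 := ih (5/4 * a) (by positivity) (by
      intro p hp
      have := h2 a (Finset.mem_insert_self _ _) p (Finset.mem_insert_of_mem hp) (ha p hp)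
      have h5 : (5:ℝ) * a ≤ 4 * p := by exact_mod_cast this
      linarith) (by
      intro p hp q hq hpq
      exact h2 p (Finset.mem_insert_of_mem hp) q (Finset.mem_insert_of_mem hq) hpq)
    have h5 : (5:ℝ) / (5/4 * a) = 4 / a := by
      field_simp
    rw [h5] at h4
    have h6 : (1:ℝ)/a + 4/a = 5/a := by ring
    have h7 : (5:ℝ)/a ≤ 5/m := by
      apply div_le_div_of_nonneg_left (by norm_num) hm h3
    linarith

lemma hh_mono {κ : ℝ} (hκ : 0 ≤ κ) {p q : ℕ} (h : p ≤ q) : hh κ p ≤ hh κ q := by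
  unfold hh
  apply Nat.ceil_mono
  have : (p:ℝ) ≤ q := by exact_mod_cast h
  nlinarith

lemma spacing {κ : ℝ} (hκ : 0 < κ) {l : List α} (hl : KF κ l) {p q : ℕ} (hp : 1 ≤ p)
    (hpq : p < q) (h1 : hh κ p ≤ 4 * lam l p) (h2 : hh κ q ≤ 4 * lam l q) :
    5 * p ≤ 4 * q := by
  set n := min (lam l p) (lam l q) with hn
  have h3 : hh κ p ≤ 4 * n := by
    have := hh_mono hκ.le hpq.le
    omega
  have h4 : n < hh κ (q - p) := by
    by_contra hcon
    push Not at hcon
    apply (KF_iff hκ l).mp hl p (q-p)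
    refine ⟨by omega, fun i hi => ?_⟩
    obtain ⟨a, ha1, ha2⟩ := (le_lam hp l (lam l p)).mp le_rfl i (by omega)
    obtain ⟨b, hb1, hb2⟩ := (le_lam (by omega : 1 ≤ q) l (lam l q)).mp le_rfl i (by omega)
    rw [ha1] at hb1
    have hab : a = b := by simpa using hb1
    subst hab
    refine ⟨a, ?_, ?_⟩
    · rw [add_comm p i]; exact ha2
    · have : p + i + (q - p) = i + q := by omega
      rw [this]; exact hb2
  have h5 := hh_lt hκ.le (q - p)
  have h6 : ((q - p : ℕ) : ℝ) = (q:ℝ) - p := by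
    rw [Nat.cast_sub hpq.le]
  rw [h6] at h5
  have h7 : (n:ℝ) + 1 ≤ hh κ (q-p) := by exact_mod_cast h4
  have h9 : (hh κ p : ℝ) ≤ 4 * n := by exact_mod_cast h3
  have h10 := le_hh κ p
  -- κ p ≤ 4 n < 4 κ (q-p)
  have h12 : κ * p < 4 * (κ * ((q:ℝ) - p)) := by linarith
  have h13 : (p:ℝ) < 4 * ((q:ℝ) - p) := by
    have : κ * p < κ * (4 * ((q:ℝ) - p)) := by linarith
    exact lt_of_mul_lt_mul_left this hκ.le
  have h14 : (5:ℝ) * p ≤ 4 * q := by linarith
  exact_mod_cast h14

lemma active_sum {κ : ℝ} (hκ : 0 < κ) {l : List α} (hl : KF κ l) (M : ℕ) :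
    ∑ p ∈ Finset.range M, (if hh κ (p+1) ≤ 4 * lam l (p+1) then (1:ℝ)/((p+1 : ℕ):ℝ) else 0)
      ≤ 5 * κ := by
  rw [← Finset.sum_filter]
  set Q := Finset.filter (fun p : ℕ => hh κ (p+1) ≤ 4 * lam l (p+1)) (Finset.range M) with hQ
  have h4 : ∑ p ∈ Q, (1:ℝ)/((p+1 : ℕ):ℝ) =
      ∑ q ∈ Q.image (fun p : ℕ => p+1), (1:ℝ)/(q:ℝ) := by
    rw [Finset.sum_image]
    intro a _ b _ hab
    simpa using hab
  rw [h4]
  have h5 := spaced_sum (Q.image (fun p : ℕ => p+1)) (1/κ) (by positivity) ?_ ?_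
  · have h6 : (5:ℝ) / (1/κ) = 5 * κ := by field_simp
    rw [h6] at h5
    exact h5
  · intro p hp
    rw [Finset.mem_image] at hp
    obtain ⟨q, hq, rfl⟩ := hp
    rw [hQ, Finset.mem_filter] at hq
    have g1 := hh_pos hκ (by omega : 1 ≤ q + 1)
    have g2 := KF_lam hκ hl (by omega : 1 ≤ q + 1)
    have g3 := hq.2
    have g4 : 2 ≤ hh κ (q+1) := by omega
    have g5 := hh_lt hκ.le (q+1)
    have g6 : (2:ℝ) ≤ hh κ (q+1) := by exact_mod_cast g4
    rw [div_le_iff₀ hκ]
    linarith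
  · intro p hp q hq hpq
    rw [Finset.mem_image] at hp hq
    obtain ⟨p', hp', rfl⟩ := hp
    obtain ⟨q', hq', rfl⟩ := hq
    rw [hQ, Finset.mem_filter] at hp' hq'
    exact spacing hκ hl (by omega) hpq hp'.2 hq'.2

noncomputable def Gs (κ : ℝ) (l : List α) : ℝ :=
  ∑ p ∈ Finset.range l.length, gw κ (p+1) (lam l (p+1))

noncomputable def GT (κ : ℝ) : List α → ℝ
  | [] => 0
  | (a :: l) => Gs κ (a :: l) + GT κ l

lemma GT_le_Sg (κ : ℝ) (M : ℕ) : ∀ l : List α, l.length ≤ M →
    GT κ l ≤ ∑ p ∈ Finset.range M, Sg κ (p+1) l := by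
  intro l
  induction l with
  | nil => intro _; simp [GT, Sg]
  | cons a l ih =>
    intro h
    rw [List.length_cons] at h
    have h1 := ih (by omega)
    simp only [GT, Sg]
    rw [Finset.sum_add_distrib]
    have h2 : Gs κ (a :: l) ≤ ∑ p ∈ Finset.range M, gw κ (p+1) (lam (a :: l) (p+1)) := by
      unfold Gs
      apply Finset.sum_le_sum_of_subset_of_nonneg
      · intro x hx
        rw [Finset.mem_range] at hx ⊢
        rw [List.length_cons] at hx
        omega
      · intro i _ _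
        exact gw_nonneg _ _ _
    linarith

lemma Sd_le {κ : ℝ} (hκ : 0 < κ) (M : ℕ) : ∀ l : List α, KF κ l →
    ∑ p ∈ Finset.range M, Sd κ (p+1) l ≤ 20 * l.length := by
  intro l
  induction l with
  | nil => intro _; simp [Sd]
  | cons a l ih =>
    intro h
    have h1 := ih h.1
    simp only [Sd]
    rw [Finset.sum_add_distrib]
    have h2 : ∑ p ∈ Finset.range M, dw κ (p+1) (lam (a :: l) (p+1)) ≤ 20 := by
      have h3 := active_sum hκ h M
      have h4 : ∑ p ∈ Finset.range M, dw κ (p+1) (lam (a :: l) (p+1)) =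
          (4/κ) * ∑ p ∈ Finset.range M,
            (if hh κ (p+1) ≤ 4 * lam (a :: l) (p+1) then (1:ℝ)/((p+1 : ℕ):ℝ) else 0) := by
        rw [Finset.mul_sum]
        apply Finset.sum_congr rfl
        intro p _
        unfold dw
        split_ifs
        · rw [mul_one_div]
        · simp
      rw [h4]
      have h5 : (4/κ) * (5 * κ) = 20 := by field_simp; norm_num
      rw [← h5]
      apply mul_le_mul_of_nonneg_left h3
      positivity
    rw [List.length_cons]
    push_cast
    linarith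

lemma GT_le {κ : ℝ} (hκ : 0 < κ) (l : List α) (hl : KF κ l) :
    GT κ l ≤ 20 * l.length := by
  refine le_trans (GT_le_Sg κ l.length l le_rfl) ?_
  refine le_trans ?_ (Sd_le hκ l.length l hl)
  apply Finset.sum_le_sum
  intro p _
  exact Sg_le_Sd hκ (by omega) l hl

lemma RR_le_Gs {κ : ℝ} (hκ : 0 < κ) (l : List α) :
    RR κ l ≤ SS (κ/2) + Gs κ l := by
  unfold RR Gs
  have h1 : ∀ p ∈ Finset.range l.length, (1/2 : ℝ) ^ (hh κ (p+1) - lam l (p+1)) ≤
      ((1/2 : ℝ) ^ (κ/2)) ^ (p+1) + gw κ (p+1) (lam l (p+1)) := by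
    intro p _
    unfold gw
    have h0 : 0 < ((1/2 : ℝ) ^ (κ/2)) ^ (p+1) := pow_pos (rpow_half_pos _) _
    split_ifs with h2
    · linarith
    · rw [add_zero]
      apply pow_half_le_rpow
      have h3 := le_hh κ (p+1)
      have h4 : hh κ (p+1) ≤ 2 * (hh κ (p+1) - lam l (p+1)) := by omega
      have h5 : (hh κ (p+1) : ℝ) ≤ 2 * ((hh κ (p+1) - lam l (p+1) : ℕ) : ℝ) := by exact_mod_cast h4
      linarith
  refine le_trans (Finset.sum_le_sum h1) ?_
  rw [Finset.sum_add_distrib]
  have := geom_bound (θ := κ/2) (by positivity) l.length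
  linarith

/-- Every word all of whose extensions can be extended has an extension of small weight. -/
lemma stageA {κ : ℝ} (hκ : 0 < κ) (w : List α) (hw : KF κ w)
    (hex : ∀ l, KF κ (l ++ w) → ∃ a, KF κ (a :: (l ++ w))) :
    ∃ v, KF κ (v ++ w) ∧ RR κ (v ++ w) ≤ SS (κ/2) + 21 := by
  obtain ⟨ξ, _, hξ⟩ := exists_seq (fun l => KF κ (l ++ w)) (Set.univ : Set α) (by simpa using hw)
    (fun l hl => by
      obtain ⟨a, ha⟩ := hex l hl
      exact ⟨a, Set.mem_univ _, by simpa using ha⟩)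
  by_contra hcon
  push Not at hcon
  have h1 : ∀ n : ℕ, 21 * (n:ℝ) ≤ GT κ (lst ξ n ++ w) := by
    intro n
    induction n with
    | zero =>
      simp only [lst, List.nil_append]
      have : ∀ l : List α, 0 ≤ GT κ l := by
        intro l
        induction l with
        | nil => simp [GT]
        | cons a l ih =>
          simp only [GT]
          have : 0 ≤ Gs κ (a :: l) := by
            unfold Gs
            apply Finset.sum_nonneg
            intro p _; exact gw_nonneg _ _ _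
          linarith
      have := this w
      simpa using this
    | succ n ih =>
      have h2 : lst ξ (n+1) ++ w = ξ n :: (lst ξ n ++ w) := by simp [lst]
      rw [h2]
      simp only [GT]
      rw [← h2]
      have h3 := hcon (lst ξ (n+1)) (hξ (n+1))
      have h4 := RR_le_Gs hκ (lst ξ (n+1) ++ w)
      push_cast
      linarith
  have h2 := h1 (20 * w.length + 1)
  have h3 := GT_le hκ _ (hξ (20 * w.length + 1))
  rw [List.length_append, lst_length] at h3
  push_cast at h2 h3
  have h4 : (0:ℝ) ≤ w.length := by positivity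
  linarith

end H42PF
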