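import Mathlib

namespace H42PF

/-- The number of matched pairs that a repetition of period `p` and exponent `1 + κ` has. -/
noncomputable def hh (κ : ℝ) (p : ℕ) : ℕ := ⌈κ * p⌉₊

lemma hh_pos {κ : ℝ} (hκ : 0 < κ) {p : ℕ} (hp : 1 ≤ p) : 1 ≤ hh κ p := by
  unfold hh
  apply Nat.one_le_iff_ne_zero.mpr
  rw [Ne, Nat.ceil_eq_zero, not_le]
  have : (1:ℝ) ≤ p := by exact_mod_cast hp
  positivity

lemma le_hh (κ : ℝ) (p : ℕ) : κ * p ≤ hh κ p := Nat.le_ceil _

lemma hh_lt {κ : ℝ} (hκ : 0 ≤ κ) (p : ℕ) : (hh κ p : ℝ) < κ * p + 1 :=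
  Nat.ceil_lt_add_one (by positivity)

lemma hh_le_self {κ : ℝ} (h1 : κ ≤ 1) (p : ℕ) : hh κ p ≤ p := by
  unfold hh
  apply Nat.ceil_le.mpr
  have : (0:ℝ) ≤ p := by positivity
  nlinarith

variable {α : Type*} [DecidableEq α]

/-- The length of the self-match of the list `l`, read from its head, with shift `p`. -/
def lam : List α → ℕ → ℕ
  | [], _ => 0
  | (a :: l), p => if l[p-1]? = some a then lam l p + 1 else 0

/-- `l` contains no repetition with exponent at least `1 + κ`. -/
def KF (κ : ℝ) : List α → Prop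
  | [] => True
  | (a :: l) => KF κ l ∧ ∀ p, 1 ≤ p → lam (a :: l) p < hh κ p

/-- A repetition of period `p` and exponent at least `1 + κ` that starts at index `s`. -/
def EvL (κ : ℝ) (l : List α) (s p : ℕ) : Prop :=
  1 ≤ p ∧ ∀ i, i < hh κ p → ∃ a, l[s+i]? = some a ∧ l[s+i+p]? = some a

lemma lam_nil (p : ℕ) : lam ([] : List α) p = 0 := rfl

lemma lam_cons (a : α) (l : List α) (p : ℕ) :
    lam (a :: l) p = if l[p-1]? = some a then lam l p + 1 else 0 := rfl

lemma le_lam {p : ℕ} (hp : 1 ≤ p) : ∀ (l : List α) (n : ℕ),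
    n ≤ lam l p ↔ ∀ i, i < n → ∃ a, l[i]? = some a ∧ l[i+p]? = some a := by
  intro l
  induction l with
  | nil =>
    intro n
    rw [lam_nil]
    constructor
    · intro h i hi; omega
    · intro h
      by_contra hn
      obtain ⟨a, ha, _⟩ := h 0 (by omega)
      simp at ha
  | cons a l ih =>
    intro n
    rw [lam_cons]
    rcases n with _ | n
    · simp
    · constructor
      · intro h
        split_ifs at h with h1
        · have h2 : n ≤ lam l p := by omega
          rw [ih] at h2
          intro i hi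
          rcases i with _ | i
          · refine ⟨a, by simp, ?_⟩
            have : 0 + p = (p - 1) + 1 := by omega
            rw [this, List.getElem?_cons_succ]
            exact h1
          · obtain ⟨b, hb1, hb2⟩ := h2 i (by omega)
            refine ⟨b, by simpa using hb1, ?_⟩
            have : i + 1 + p = (i + p) + 1 := by omega
            rw [this, List.getElem?_cons_succ]
            exact hb2
        · omega
      · intro h
        have h0 := h 0 (by omega)
        obtain ⟨b, hb1, hb2⟩ := h0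
        have hab : a = b := by simpa using hb1
        subst hab
        have e : 0 + p = (p - 1) + 1 := by omega
        rw [e, List.getElem?_cons_succ] at hb2
        rw [if_pos hb2]
        have h2 : n ≤ lam l p := by
          rw [ih]
          intro i hi
          obtain ⟨b, hb1, hb2⟩ := h (i+1) (by omega)
          refine ⟨b, by simpa using hb1, ?_⟩
          have : i + 1 + p = (i + p) + 1 := by omega
          rw [this, List.getElem?_cons_succ] at hb2
          exact hb2
        omega

lemma KF_cons {κ : ℝ} (a : α) (l : List α) :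
    KF κ (a :: l) ↔ KF κ l ∧ ∀ p, 1 ≤ p → lam (a :: l) p < hh κ p := Iff.rfl

lemma EvL_zero {κ : ℝ} {l : List α} {p : ℕ} (hp : 1 ≤ p) :
    EvL κ l 0 p ↔ hh κ p ≤ lam l p := by
  rw [le_lam hp]
  unfold EvL
  constructor
  · rintro ⟨_, h⟩ i hi
    obtain ⟨a, h1, h2⟩ := h i hi
    exact ⟨a, by simpa using h1, by simpa using h2⟩
  · intro h
    refine ⟨hp, fun i hi => ?_⟩
    obtain ⟨a, h1, h2⟩ := h i hi
    exact ⟨a, by simpa using h1, by simpa using h2⟩

lemma EvL_succ {κ : ℝ} {a : α} {l : List α} {s p : ℕ} :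
    EvL κ (a :: l) (s+1) p ↔ EvL κ l s p := by
  unfold EvL
  have e1 : ∀ i, (a :: l)[s+1+i]? = l[s+i]? := by
    intro i
    have : s + 1 + i = (s + i) + 1 := by omega
    rw [this, List.getElem?_cons_succ]
  have e2 : ∀ i, (a :: l)[s+1+i+p]? = l[s+i+p]? := by
    intro i
    have : s + 1 + i + p = (s + i + p) + 1 := by omega
    rw [this, List.getElem?_cons_succ]
  simp only [e1, e2]

lemma KF_iff {κ : ℝ} (hκ : 0 < κ) (l : List α) :
    KF κ l ↔ ∀ s p, ¬ EvL κ l s p := by
  induction l with
  | nil =>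
    constructor
    · intro _ s p h
      obtain ⟨a, ha, _⟩ := h.2 0 (hh_pos hκ h.1)
      simp at ha
    · intro _; trivial
  | cons a l ih =>
    rw [KF_cons, ih]
    constructor
    · rintro ⟨h1, h2⟩ s p h
      rcases s with _ | s
      · have := (EvL_zero h.1).mp h
        have h3 := h2 p h.1
        omega
      · exact h1 s p (EvL_succ.mp h)
    · intro h
      refine ⟨fun s p h1 => h (s+1) p (EvL_succ.mpr h1), fun p hp => ?_⟩
      by_contra h1
      exact h 0 p ((EvL_zero hp).mpr (by omega))

lemma KF_lam {κ : ℝ} (hκ : 0 < κ) {l : List α} (h : KF κ l) {p : ℕ} (hp : 1 ≤ p) :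
    lam l p < hh κ p := by
  by_contra h1
  exact (KF_iff hκ l).mp h 0 p ((EvL_zero hp).mpr (by omega))

lemma KF_tail {κ : ℝ} {a : α} {l : List α} (h : KF κ (a :: l)) : KF κ l := h.1

lemma lam_le_length {p : ℕ} (hp : 1 ≤ p) (l : List α) : lam l p + p ≤ l.length ∨ lam l p = 0 := by
  by_cases h : lam l p = 0
  · right; exact h
  · left
    have h1 := (le_lam hp l (lam l p)).mp le_rfl (lam l p - 1) (by omega)
    obtain ⟨a, _, h2⟩ := h1
    have := (List.getElem?_eq_some_iff.mp h2).1
    omega

end H42PF
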