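import Mathlib

namespace H42PF

/-- odd part -/
def od (n : ℕ) : ℕ := n / 2 ^ (padicValNat 2 n)

lemma od_eq (e t : ℕ) : od (2 ^ e * (2 * t + 1)) = 2 * t + 1 := by
  unfold od
  have h1 : padicValNat 2 (2 ^ e * (2 * t + 1)) = e := by
    have : Fact (Nat.Prime 2) := ⟨Nat.prime_two⟩
    rw [padicValNat.mul (by positivity) (by omega), padicValNat.prime_pow,
      padicValNat.eq_zero_of_not_dvd (by omega)]
    rfl
  rw [h1]
  exact Nat.mul_div_cancel_left _ (by positivity)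

def c2 (a i : ℕ) : ℕ := (od i / 2 ^ a) % 2

def cd (a i : ℕ) : ℕ := i % 2 ^ a + 2 ^ a * c2 a i

lemma c2_lt (a i : ℕ) : c2 a i < 2 := Nat.mod_lt _ (by norm_num)

lemma cd_lt (a i : ℕ) : cd a i < 2 ^ (a+1) := by
  unfold cd
  have h1 := c2_lt a i
  have h2 : i % 2 ^ a < 2 ^ a := Nat.mod_lt _ (by positivity)
  rw [pow_succ]
  have h3 : c2 a i ≤ 1 := by omega
  have h4 := Nat.mul_le_mul_left (2 ^ a) h3
  omega

lemma cd_inj {a i j : ℕ} (h : cd a i = cd a j) : i % 2 ^ a = j % 2 ^ a ∧ c2 a i = c2 a j := by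
  unfold cd at h
  have hi : i % 2 ^ a < 2 ^ a := Nat.mod_lt _ (by positivity)
  have hj : j % 2 ^ a < 2 ^ a := Nat.mod_lt _ (by positivity)
  have h1 : (i % 2 ^ a + 2 ^ a * c2 a i) % 2 ^ a = (j % 2 ^ a + 2 ^ a * c2 a j) % 2 ^ a := by rw [h]
  rw [Nat.add_mul_mod_self_left, Nat.add_mul_mod_self_left, Nat.mod_mod, Nat.mod_mod] at h1
  refine ⟨h1, ?_⟩
  rw [h1] at h
  have h2 : 2 ^ a * c2 a i = 2 ^ a * c2 a j := by omega
  exact Nat.eq_of_mul_eq_mul_left (by positivity) h2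

lemma cd_dvd {a i q : ℕ} (h : cd a i = cd a (i+q)) : 2 ^ a ∣ q := by
  have h1 := (cd_inj h).1
  have h2 : (i + q) ≡ i + 0 [MOD 2 ^ a] := by
    rw [Nat.add_zero]; exact h1.symm
  have h3 := Nat.ModEq.add_left_cancel' i h2
  exact (Nat.modEq_zero_iff_dvd).mp h3

lemma c2_odd (a e t : ℕ) :
    c2 a (2 ^ e * (2 * t + 1)) = ((2 * t + 1) / 2 ^ a) % 2 := by
  unfold c2
  rw [od_eq]

/-- The main mismatch. -/
lemma cd_ne {a v u t : ℕ} (ha : 1 ≤ a) (hv : a ≤ v) :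
    cd a (2 ^ (v - a) * (2 * t + 1)) ≠
      cd a (2 ^ (v - a) * (2 * t + 1) + 2 ^ v * (2 * u + 1)) := by
  intro h
  have h1 := (cd_inj h).2
  have e0 : 2 ^ v = 2 ^ (v - a) * 2 ^ a := by
    rw [← pow_add]
    congr 1; omega
  have e00 : 2 ^ a = 2 * 2 ^ (a - 1) := by
    rw [← pow_succ']; congr 1; omega
  have e2 : 2 ^ (v - a) * (2 * t + 1) + 2 ^ v * (2 * u + 1) =
      2 ^ (v - a) * (2 * (t + 2 ^ (a - 1) * (2 * u + 1)) + 1) := by
    rw [e0, e00]; ring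
  rw [e2, c2_odd, c2_odd] at h1
  have e3 : 2 * (t + 2 ^ (a - 1) * (2 * u + 1)) + 1 = (2 * t + 1) + 2 ^ a * (2 * u + 1) := by
    rw [e00]; ring
  rw [e3, Nat.add_mul_div_left _ _ (by positivity)] at h1
  omega

lemma exists_window (s e : ℕ) : ∃ i t, i < 2 ^ (e+1) ∧ s + i = 2 ^ e * (2 * t + 1) := by
  have hM : (2:ℕ) ^ (e+1) = 2 * 2 ^ e := by rw [pow_succ]; ring
  have hpos : 0 < 2 ^ e := by positivity
  have h1 := Nat.div_add_mod s (2 ^ (e+1))
  have h2 : s % 2 ^ (e+1) < 2 ^ (e+1) := Nat.mod_lt _ (by positivity)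
  set r := s % 2 ^ (e+1) with hr
  set k := s / 2 ^ (e+1) with hk
  rw [hM] at h1 h2 ⊢
  by_cases h3 : r ≤ 2 ^ e
  · refine ⟨2 ^ e - r, k, by omega, ?_⟩
    have : 2 ^ e * (2 * k + 1) = 2 * 2 ^ e * k + 2 ^ e := by ring
    omega
  · refine ⟨2 * 2 ^ e + 2 ^ e - r, k + 1, by omega, ?_⟩
    have : 2 ^ e * (2 * (k+1) + 1) = 2 * 2 ^ e * k + 2 * 2 ^ e + 2 ^ e := by ring
    omega

/-- Runs of the code. -/
lemma cd_run {a : ℕ} (ha : 1 ≤ a) {s q n : ℕ} (hq : 1 ≤ q)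
    (hrun : ∀ i, i < n → cd a (s+i) = cd a (s+i+q)) :
    ∃ v, 2 ^ v ∣ q ∧ n * 2 ^ a ≤ 2 * 2 ^ v := by
  rcases Nat.eq_zero_or_pos n with h0 | h0
  · exact ⟨0, by simp, by simp [h0]⟩
  · have h1 := cd_dvd (hrun 0 h0)
    obtain ⟨v, u, hu, hqv⟩ := Nat.exists_eq_two_pow_mul_odd (n := q) (by omega)
    obtain ⟨u', rfl⟩ := hu
    refine ⟨v, Dvd.intro _ hqv.symm, ?_⟩
    have hav : a ≤ v := by
      by_contra hcon
      push Not at hcon
      rw [hqv] at h1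
      have h2 : 2 ^ (v+1) ∣ 2 ^ v * (2 * u' + 1) := dvd_trans (pow_dvd_pow 2 hcon) h1
      rw [pow_succ] at h2
      have h3 := Nat.dvd_of_mul_dvd_mul_left (by positivity) h2
      omega
    have h2 : n < 2 ^ (v - a + 1) := by
      by_contra hcon
      push Not at hcon
      obtain ⟨i, t, hi, hit⟩ := exists_window s (v - a)
      have h3 := hrun i (by omega)
      rw [hit, hqv] at h3
      exact cd_ne ha hav h3
    have h3 : 2 ^ (v - a + 1) * 2 ^ a = 2 * 2 ^ v := by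
      rw [← pow_add, ← pow_succ']
      congr 1; omega
    rw [← h3]
    exact Nat.mul_le_mul_right _ h2.le

/-- numbers with binary expansion 10101...01 -/
def PP : ℕ → ℕ
  | 0 => 0
  | (j+1) => 4 * PP j + 1

lemma le_PP (j : ℕ) : j ≤ PP j := by
  induction j with
  | zero => simp
  | succ j ih => simp only [PP]; omega

lemma PP_odd (j : ℕ) : PP (j+1) % 2 = 1 := by simp only [PP]; omega

lemma PP_good (j : ℕ) : ∀ v p, 2 ≤ v → p < PP j → 2 ^ v ∣ PP j - p → 2 ^ v ≤ 4 * p := by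
  induction j with
  | zero => intro v p _ h; simp [PP] at h
  | succ j ih =>
    intro v p hv hp hd
    have h4 : 4 ∣ 2 ^ v := by
      have : (4:ℕ) = 2 ^ 2 := by norm_num
      rw [this]; exact pow_dvd_pow 2 hv
    have h5 := dvd_trans h4 hd
    simp only [PP] at hp hd h5
    obtain ⟨p', rfl⟩ : ∃ p', p = 4 * p' + 1 := ⟨p / 4, by omega⟩
    have e1 : 4 * PP j + 1 - (4 * p' + 1) = 4 * (PP j - p') := by omega
    obtain ⟨w, rfl⟩ : ∃ w, v = w + 2 := ⟨v - 2, by omega⟩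
    have e2 : (2:ℕ) ^ (w+2) = 4 * 2 ^ w := by rw [pow_add]; ring
    rw [e1, e2] at hd
    have hd' : 2 ^ w ∣ PP j - p' := Nat.dvd_of_mul_dvd_mul_left (by norm_num) hd
    rw [e2]
    rcases Nat.lt_or_ge w 2 with hw | hw
    · rcases Nat.eq_zero_or_pos w with hw0 | hw0
      · subst hw0; simp
      · have hw1 : w = 1 := by omega
        subst hw1
        rcases Nat.eq_zero_or_pos p' with hp0 | hp0
        · subst hp0
          rcases j with _ | j
          · simp [PP] at hp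
          · have h6 := PP_odd j
            rw [Nat.sub_zero, pow_one] at hd'
            omega
        · omega
    · have h7 := ih w p' hw (by omega) hd'
      omega

end H42PF
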