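import Pool.Agent.H42.PF.Step
import Pool.Agent.H42.PF.Avg
import Pool.Agent.H42.PF.Code

namespace H42PF

section

variable {α : Type*} [DecidableEq α] [Fintype α]

/-- One step of the nested construction. -/
lemma State.step {κ ε K : ℝ} (hκ : 0 < κ) (hκ1 : κ < 1) (hε : 0 < ε)
    (hε1 : 4 * ε ≤ κ) {p0 : ℕ} (hp01 : 1 ≤ p0) {F : Finset α}
    {ζ X : ℕ → α} {b : ℕ}
    (st : State κ ε p0 F ζ X b) (hc : Code ε F ζ)
    (hK : p0 + SS (κ/2) ≤ K)
    (hA1 : 2 * K < (Fᶜ : Finset α).card) (hA2 : 2 * K / (Fᶜ : Finset α).card + SS κ ≤ K)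
    (a : α) (ha : SF κ (cns a X)) :
    ∃ Y b', State κ ε p0 F ζ Y b' ∧ ¬ SF κ (cns a Y) ∧
      ∀ a', SF κ (cns a' Y) → SF κ (cns a' X) := by
  obtain ⟨P, n, τ, hL⟩ := exists_len hκ hκ1 hε1 hc b
  obtain ⟨X2, h1, h2, h3⟩ := st.filler hκ hκ1.le hc hK hA1 hA2 a ha τ
  have hP := hL.hP
  set Y : ℕ → α := fun i => if i < n then X i else X2 (i - n) with hY
  have hY2 : ∀ i, Y (n + i) = X2 i := by
    intro i
    simp only [hY]
    rw [if_neg (by omega)]
    congr 1; omega
  have hn : New F ζ X Y a b P n τ := by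
    refine ⟨?_, ?_, ?_, ?_⟩
    · intro i hi
      simp only [hY]; rw [if_pos hi]
    · intro i hi1 hi2
      simp only [hY]; rw [if_neg (by omega)]
      exact h1 _ (by omega)
    · rw [hY2]
      have := h2 0
      rw [Nat.add_zero] at this
      rw [this, cns_zero]
    · intro i
      have e : P + i = n + (τ + (i + 1)) := by omega
      rw [e, hY2, h2, cns_succ]
  refine ⟨Y, P + b, ⟨?_, ?_, ?_, ?_⟩, new_block hL hn, ?_⟩
  · intro i; exact hn.code st.code i
  · right
    have := hL.tau
    exact ⟨n, by omega, hn.yT n le_rfl (by omega)⟩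
  · exact new_sf hκ hκ1 hε st hc hL hn h3 hY2
  · intro a' ha' p m hp hrun
    exact new_low hκ hκ1 hε st hc hp01 hL hn a' ha' p m hp hrun
  · intro a' ha'
    exact new_free hκ hκ1 hε st hc hL hn a' ha'

open Classical in
/-- A stream in front of which every letter is blocked. -/
lemma State.full {κ ε K : ℝ} (hκ : 0 < κ) (hκ1 : κ < 1) (hε : 0 < ε)
    (hε1 : 4 * ε ≤ κ) {p0 : ℕ} (hp01 : 1 ≤ p0) {F : Finset α}
    {ζ : ℕ → α} (hc : Code ε F ζ)
    (hK : p0 + SS (κ/2) ≤ K)
    (hA1 : 2 * K < (Fᶜ : Finset α).card) (hA2 : 2 * K / (Fᶜ : Finset α).card + SS κ ≤ K)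
    (N : ℕ) : ∀ (X : ℕ → α) (b : ℕ), State κ ε p0 F ζ X b →
    (Finset.univ.filter (fun a => SF κ (cns a X))).card ≤ N →
    ∃ X' b', State κ ε p0 F ζ X' b' ∧ ∀ a, ¬ SF κ (cns a X') := by
  induction N with
  | zero =>
    intro X b st h
    refine ⟨X, b, st, fun a ha => ?_⟩
    have h1 : Finset.univ.filter (fun a => SF κ (cns a X)) = ∅ := by
      rw [← Finset.card_eq_zero]; omega
    have h2 : a ∈ Finset.univ.filter (fun a => SF κ (cns a X)) := by simp [ha]
    rw [h1] at h2
    simp at h2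
  | succ N ih =>
    intro X b st h
    by_cases hex : ∃ a, SF κ (cns a X)
    · obtain ⟨a, ha⟩ := hex
      obtain ⟨Y, b', st', hb, hf⟩ := st.step hκ hκ1 hε hε1 hp01 hc hK hA1 hA2 a ha
      apply ih Y b' st'
      have h1 : Finset.univ.filter (fun a => SF κ (cns a Y)) ⊆
          (Finset.univ.filter (fun a => SF κ (cns a X))).erase a := by
        intro x hx
        simp only [Finset.mem_filter, Finset.mem_univ, true_and, Finset.mem_erase] at hx ⊢
        refine ⟨?_, hf x hx⟩
        rintro rfl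
        exact hb hx
      have h2 := Finset.card_le_card h1
      rw [Finset.card_erase_of_mem (by simp [ha])] at h2
      omega
    · push Not at hex
      exact ⟨X, b, st, hex⟩

/-- Assemble: put the gadget in front of a word. -/
lemma assemble {κ ε K : ℝ} (hκ : 0 < κ) (hκ1 : κ < 1) (hε : 0 < ε)
    (hε1 : 4 * ε ≤ κ) {p0 : ℕ} {F : Finset α}
    {ζ X : ℕ → α} {b : ℕ} (hc : Code ε F ζ) (st : State κ ε p0 F ζ X b)
    (hA1 : 2 * K < (Fᶜ : Finset α).card) (hA2 : 2 * K / (Fᶜ : Finset α).card + SS κ ≤ K)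
    (hfull : ∀ a, ¬ SF κ (cns a X)) (w : List α) (hw : KF κ w) (hR : RR κ w ≤ K) :
    ∃ v, KF κ (v ++ w) ∧ ∀ a, ¬ KF κ (a :: (v ++ w)) := by
  have h1κ : 0 < 1 - κ := by linarith
  have heps : 4 * ε ≤ κ := hε1
  set u := w.length with hu
  have hb0 : (0:ℝ) ≤ b := by positivity
  have hu0 : (0:ℝ) ≤ u := by positivity
  set L := ⌈4 * ((b:ℝ) + 1) / κ⌉₊ + u + 5 with hL
  have hLκ : 4 * ((b:ℝ) + 1) ≤ κ * L := by
    have g1 : 4 * ((b:ℝ) + 1) / κ ≤ ⌈4 * ((b:ℝ) + 1) / κ⌉₊ := Nat.le_ceil _
    rw [div_le_iff₀ hκ] at g1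
    rw [hL]; push_cast
    nlinarith
  set t := ⌈(2 * (u:ℝ) + b + 4) / κ⌉₊ with ht
  have htκ : 2 * (u:ℝ) + b + 4 ≤ κ * t := by
    have g1 : (2 * (u:ℝ) + b + 4) / κ ≤ t := Nat.le_ceil _
    rw [div_le_iff₀ hκ] at g1
    linarith
  have htu : 2 * u + b + 4 ≤ t := by
    have g1 : κ * t ≤ t := by
      have : (0:ℝ) ≤ t := by positivity
      nlinarith
    have : ((2 * u + b + 4 : ℕ):ℝ) ≤ t := by push_cast; linarith
    exact_mod_cast this
  obtain ⟨T, hT1, hT2, hT3, _⟩ := greedy hκ (Fᶜ : Finset α) hA1 hA2 w hw hR t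
  set N := b + L with hN
  set D : List α := (List.range N).map X with hD
  have hDlen : D.length = N := by simp [hD]
  set V := D ++ (T ++ w) with hV
  have hVlen : V.length = N + t + u := by
    rw [hV, List.length_append, List.length_append, hDlen, hT1]
    omega
  have v1 : ∀ i, i < N → V[i]? = some (X i) := by
    intro i hi
    rw [hV, List.getElem?_append_left (by omega), hD]
    simp [hi]
  have v2 : ∀ i c, N ≤ i → i < N + t → V[i]? = some c → c ∉ F := by
    intro i c hi1 hi2 hc'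
    rw [hV, List.getElem?_append_right (by omega), hDlen,
      List.getElem?_append_left (by omega)] at hc'
    have h2 : i - N < T.length := by omega
    rw [List.getElem?_eq_getElem h2] at hc'
    have h3 : T[i-N] = c := by simpa using hc'
    have := hT2 (T[i-N]) (List.getElem_mem h2)
    rw [h3] at this
    simpa using this
  have v3 : ∀ i, V[N + i]? = (T ++ w)[i]? := by
    intro i
    rw [hV, List.getElem?_append_right (by omega), hDlen]
    congr 1; omega
  have vF : ∀ i c, b ≤ i → i < N → V[i]? = some c → c ∈ F := by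
    intro i c hi1 hi2 hc'
    rw [v1 i hi2] at hc'
    have : X i = c := by simpa using hc'
    rw [← this]
    exact st.mem hc hi1
  refine ⟨D ++ T, ?_, ?_⟩
  · have hassoc : D ++ T ++ w = V := by rw [hV, List.append_assoc]
    rw [hassoc, KF_iff hκ]
    rintro s p ⟨hp, hrun⟩
    have hp' : (1:ℝ) ≤ p := by exact_mod_cast hp
    have hpos := hh_pos hκ hp
    have hκp := le_hh κ p
    set h := hh κ p with hh_def
    have htot : s + p + h ≤ N + t + u := by
      obtain ⟨c, _, g2⟩ := hrun (h-1) (by omega)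
      have := (List.getElem?_eq_some_iff.mp g2).1
      omega
    by_cases q1 : N ≤ s
    · apply (KF_iff hκ (T ++ w)).mp hT3 (s - N) p
      refine ⟨hp, fun i hi => ?_⟩
      obtain ⟨c, g1, g2⟩ := hrun i hi
      refine ⟨c, ?_, ?_⟩
      · rw [← v3]
        have : N + (s - N + i) = s + i := by omega
        rw [this]; exact g1
      · rw [← v3]
        have : N + (s - N + i + p) = s + i + p := by omega
        rw [this]; exact g2
    push Not at q1
    by_cases q2 : s + p + h ≤ N
    · apply st.sf s p hp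
      intro i hi
      rw [← hh_def] at hi
      obtain ⟨c, g1, g2⟩ := hrun i hi
      rw [v1 _ (by omega)] at g1 g2
      have e1 : X (s+i) = c := by simpa using g1
      have e2 : X (s+i+p) = c := by simpa using g2
      rw [e1, e2]
    push Not at q2
    by_cases q3 : N < s + h
    · obtain ⟨c, g1, g2⟩ := hrun (N - 1 - s) (by omega)
      have e : s + (N - 1 - s) = N - 1 := by omega
      rw [e] at g1 g2
      have hcF : c ∈ F := vF _ _ (by omega) (by omega) g1
      have f2 : t + 1 ≤ p := by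
        by_contra hcon
        exact v2 (N - 1 + p) c (by omega) (by omega) g2 hcF
      have f3 : (2 * u + b + 4 : ℕ) ≤ h := by
        have g1 : κ * t ≤ κ * p := by
          apply mul_le_mul_of_nonneg_left _ hκ.le
          exact_mod_cast (by omega : t ≤ p)
        have : ((2 * u + b + 4 : ℕ):ℝ) ≤ h := by push_cast; linarith
        exact_mod_cast this
      have f4 : p < t + u := by
        obtain ⟨c2, _, g4⟩ := hrun (N - s) (by omega)
        have e : s + (N - s) = N := by omega
        rw [e] at g4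
        have := (List.getElem?_eq_some_iff.mp g4).1
        omega
      obtain ⟨c3, g5, g6⟩ := hrun (N - u - 1 - s) (by omega)
      have e : s + (N - u - 1 - s) = N - u - 1 := by omega
      rw [e] at g5 g6
      exact v2 (N - u - 1 + p) c3 (by omega) (by omega) g6 (vF _ _ (by omega) (by omega) g5)
    · push Not at q3
      set j := s + h - 1 with hj
      obtain ⟨c, g1, g2⟩ := hrun (h-1) (by omega)
      have e : s + (h - 1) = j := by omega
      rw [e] at g1 g2
      by_cases hjb : j < b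
      · have k1 : (h:ℝ) ≤ b := by exact_mod_cast (by omega : h ≤ b)
        have k2 : (L:ℝ) ≤ p := by exact_mod_cast (by omega : L ≤ p)
        have k3 : κ * L ≤ κ * p := mul_le_mul_of_nonneg_left k2 hκ.le
        linarith
      · push Not at hjb
        have hcF : c ∈ F := vF _ _ hjb (by omega) g1
        have f2 : N + t ≤ j + p := by
          by_contra hcon
          exact v2 (j+p) c (by omega) (by omega) g2 hcF
        have f3 : (2 * u + b + 4 : ℕ) ≤ h := by
          have g1 : κ * t ≤ κ * p := by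
            apply mul_le_mul_of_nonneg_left _ hκ.le
            exact_mod_cast (by omega : t ≤ p)
          have : ((2 * u + b + 4 : ℕ):ℝ) ≤ h := by push_cast; linarith
          exact_mod_cast this
        have f4 : N + t ≤ max s b + p := by
          by_contra hcon
          push Not at hcon
          obtain ⟨c2, g3, g4⟩ := hrun (N + t - 1 - p - s) (by omega)
          have e2 : s + (N + t - 1 - p - s) = N + t - 1 - p := by omega
          rw [e2] at g3 g4
          exact v2 (N + t - 1 - p + p) c2 (by omega) (by omega) g4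
            (vF _ _ (by omega) (by omega) g3)
        have f5 := (List.getElem?_eq_some_iff.mp g2).1
        omega
  · intro a hKF
    have hassoc : D ++ T ++ w = V := by rw [hV, List.append_assoc]
    rw [hassoc] at hKF
    apply hfull a
    intro s p hp hrun
    rcases s with _ | s
    · have hrun' : ∀ i, i < hh κ p → cns a X i = cns a X (i+p) := by
        intro i hi
        have := hrun i hi
        rw [Nat.zero_add] at this; exact this
      have hp' : (1:ℝ) ≤ p := by exact_mod_cast hp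
      have hκp := le_hh κ p
      have k1 : κ * p ≤ b + 1 + ε * p := by
        by_cases hbp : b ≤ p
        · have := st.short hc hε.le a hp hbp hrun'
          linarith
        · push Not at hbp
          have h2 : (p:ℝ) ≤ b := by exact_mod_cast hbp.le
          have h3 : κ * p ≤ 1 * p := mul_le_mul_of_nonneg_right hκ1.le (by linarith)
          have h4 : 0 ≤ ε * p := by positivity
          linarith
      have k2 : 4 * (ε * p) ≤ κ * p := by nlinarith
      have k3 : κ * (2 * p) ≤ κ * L := by linarith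
      have k4 : (2 * (p:ℝ)) ≤ L := le_of_mul_le_mul_left k3 hκ
      have k5 : 2 * p ≤ L := by exact_mod_cast k4
      have k6 := hh_le_self hκ1.le p
      have hget : ∀ i, i ≤ N → (a :: V)[i]? = some (cns a X i) := by
        intro i hi
        rcases i with _ | i
        · simp
        · rw [List.getElem?_cons_succ, v1 i (by omega), cns_succ]
      apply (KF_iff hκ (a :: V)).mp hKF 0 p
      refine ⟨hp, fun i hi => ⟨cns a X i, ?_, ?_⟩⟩
      · rw [Nat.zero_add]; exact hget i (by omega)
      · rw [Nat.zero_add, hrun' i hi]; exact hget _ (by omega)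
    · apply st.sf s p hp
      intro i hi
      have h1 := hrun i hi
      have e1 : s + 1 + i = (s + i) + 1 := by omega
      have e2 : s + 1 + i + p = (s + i + p) + 1 := by omega
      rw [e2, e1, cns_succ, cns_succ] at h1
      exact h1

end

section

variable {α : Type*} [DecidableEq α] [Fintype α]

/-- The explicit code stream. -/
lemma exists_code2 {a : ℕ} (ha : 3 ≤ a) (F : Finset α) (hF : F.card = 2 ^ (a+1)) :
    ∃ ζ : ℕ → α, Code (8 / (2:ℝ) ^ a) F ζ := by
  classical
  let eq := (F.equivFinOfCardEq hF).symm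
  set ζ : ℕ → α := fun i => (eq ⟨cd a i, cd_lt a i⟩ : α) with hζ
  have hinj : ∀ i j, ζ i = ζ j → cd a i = cd a j := by
    intro i j h
    simp only [hζ] at h
    have h1 := eq.injective (Subtype.ext h)
    simpa using h1
  have hpow : (0:ℝ) < 2 ^ a := by positivity
  have hrun : ∀ s q n, 1 ≤ q → (∀ i, i < n → ζ (s+i) = ζ (s+i+q)) →
      ∃ v, 2 ^ v ∣ q ∧ n * 2 ^ a ≤ 2 * 2 ^ v := by
    intro s q n hq h
    exact cd_run (by omega) hq (fun i hi => hinj _ _ (h i hi))
  refine ⟨ζ, ?_, ?_, ?_⟩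
  · intro i; exact (eq ⟨cd a i, cd_lt a i⟩).2
  · intro s p n hp h
    obtain ⟨v, hv, hn⟩ := hrun s p n hp h
    have h1 := Nat.le_of_dvd (by omega) hv
    have h2 : n * 2 ^ a ≤ 8 * p := by omega
    have h3 : (n:ℝ) * 2 ^ a ≤ 8 * p := by exact_mod_cast h2
    rw [div_mul_eq_mul_div, le_div_iff₀ hpow]
    exact h3
  · intro N0
    refine ⟨PP N0, le_PP N0, ?_⟩
    intro s p q n hq hpq h
    obtain ⟨v, hv, hn⟩ := hrun s q n hq h
    have h2 : n * 2 ^ a ≤ 8 * p := by
      rcases Nat.lt_or_ge v 2 with hv2 | hv2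
      · have h3 : 2 ^ v ≤ 2 ^ 1 := Nat.pow_le_pow_right (by norm_num) (by omega)
        have h4 : 2 ^ 3 ≤ 2 ^ a := Nat.pow_le_pow_right (by norm_num) ha
        have h5 : n = 0 := by
          by_contra hne
          have : 1 * 2 ^ a ≤ n * 2 ^ a := Nat.mul_le_mul_right _ (by omega)
          omega
        simp [h5]
      · have h3 : PP N0 - p = q := by omega
        have h4 := PP_good N0 v p hv2 (by omega) (by rw [h3]; exact hv)
        omega
    have h3 : (n:ℝ) * 2 ^ a ≤ 8 * p := by exact_mod_cast h2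
    rw [div_mul_eq_mul_div, le_div_iff₀ hpow]
    exact h3

end

/-- Bernoulli type bound. -/
lemma SS_le {θ : ℝ} (h0 : 0 < θ) (h1 : θ ≤ 1) : SS θ ≤ 2 / θ := by
  unfold SS
  have h2 : (1/2 : ℝ) ^ θ ≤ 1 - θ / 2 := by
    have h3 := _root_.rpow_one_add_le_one_add_mul_self (s := -(1/2)) (by norm_num) h0.le h1
    have e1 : (1 + -(1/2) : ℝ) = 1/2 := by norm_num
    rw [e1] at h3
    linarith
  have h3 : θ / 2 ≤ 1 - (1/2 : ℝ) ^ θ := by linarith
  have h4 : 0 < θ / 2 := by positivity
  calc 1 / (1 - (1/2 : ℝ) ^ θ) ≤ 1 / (θ / 2) := by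
        apply div_le_div_of_nonneg_left (by norm_num) h4 h3
    _ = 2 / θ := by field_simp

/-- Left-maximal extensions. -/
theorem left_ext {κ : ℝ} (hκ : 0 < κ) (hκ1 : κ < 1) {α : Type*} [DecidableEq α] [Fintype α]
    (hcard : 200 ≤ κ * Fintype.card α) (w : List α) (hw : KF κ w) :
    ∃ v, KF κ (v ++ w) ∧ ∀ a, ¬ KF κ (a :: (v ++ w)) := by
  classical
  have h1κ : 0 < 1 - κ := by linarith
  -- choice of the code
  have hx : 1 ≤ 32 / κ := by rw [le_div_iff₀ hκ]; linarith
  obtain ⟨a0, ha1, ha2⟩ := exists_nat_pow_near hx (by norm_num : (1:ℝ) < 2)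
  set a := a0 + 1 with ha
  have hMlow : 32 / κ < (2:ℝ) ^ a := ha2
  have hMup : (2:ℝ) ^ a ≤ 64 / κ := by
    rw [ha, pow_succ]
    have : (64:ℝ) / κ = 32 / κ * 2 := by ring
    rw [this]
    linarith
  have ha3 : 3 ≤ a := by
    by_contra hcon
    push Not at hcon
    have h2 : (2:ℝ) ^ a ≤ 2 ^ 3 := pow_le_pow_right₀ (by norm_num) hcon.le
    have h3 : 32 < 32 / κ := by
      rw [lt_div_iff₀ hκ]; linarith
    norm_num at h2
    linarith
  have hpow : (0:ℝ) < 2 ^ a := by positivity
  set ε : ℝ := 8 / 2 ^ a with hεdef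
  have hε : 0 < ε := by positivity
  have hε1 : 4 * ε ≤ κ := by
    rw [hεdef, mul_div_assoc', div_le_iff₀ hpow]
    rw [div_lt_iff₀ hκ] at hMlow
    linarith
  have hcardκ : 200 / κ ≤ Fintype.card α := by
    rw [div_le_iff₀ hκ]; linarith
  have hone : 1 ≤ 1 / κ := by rw [le_div_iff₀ hκ]; linarith
  have e64 : (64:ℝ) / κ = 64 * (1/κ) := by ring
  have e200 : (200:ℝ) / κ = 200 * (1/κ) := by ring
  have hfcard : 2 ^ (a+1) ≤ (Finset.univ : Finset α).card := by
    rw [Finset.card_univ]
    have h2 : ((2 ^ (a+1) : ℕ) : ℝ) ≤ (Fintype.card α : ℝ) := by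
      push_cast
      rw [pow_succ]
      linarith
    exact_mod_cast h2
  obtain ⟨F, _, hF⟩ := Finset.exists_subset_card_eq hfcard
  obtain ⟨ζ, hc⟩ := exists_code2 ha3 F hF
  -- the other constants
  set p0 : ℕ := ⌈4 / κ⌉₊ with hp0def
  have hp0up : (p0:ℝ) ≤ 4 / κ + 1 := (Nat.ceil_lt_add_one (by positivity)).le
  have hp0low : 4 / κ ≤ p0 := Nat.le_ceil _
  have hp0 : 4 ≤ κ * p0 := by
    rw [div_le_iff₀ hκ] at hp0low
    linarith
  have hp01 : 1 ≤ p0 := by
    by_contra h
    have : p0 = 0 := by omega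
    rw [this] at hp0
    push_cast at hp0
    linarith
  have hSκ := SS_pos hκ
  have hSκ2 := SS_pos (θ := κ/2) (by positivity)
  have hb1 : SS (κ/2) ≤ 4 * (1/κ) := by
    have := SS_le (θ := κ/2) (by positivity) (by linarith)
    have e : 2 / (κ/2) = 4 * (1/κ) := by field_simp; norm_num
    linarith
  have hmono : SS κ ≤ SS (κ/2) := by
    unfold SS
    have h2 : (1/2 : ℝ) ^ κ ≤ (1/2 : ℝ) ^ (κ/2) :=
      Real.rpow_le_rpow_of_exponent_ge (by norm_num) (by norm_num) (by linarith)
    have h3 := rpow_half_lt_one (θ := κ/2) (by positivity)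
    apply div_le_div_of_nonneg_left (by norm_num) (by linarith) (by linarith)
  set K : ℝ := SS (κ/2) + p0 + 21 with hK
  have hKpos : 0 < K := by positivity
  have e4 : (4:ℝ) / κ = 4 * (1/κ) := by ring
  have hKup : 2 * K ≤ 60 * (1/κ) := by
    rw [hK]; linarith
  have hAc : 2 * K < ((Fᶜ : Finset α).card : ℝ) := by
    rw [Finset.card_compl, hF]
    rw [Finset.card_univ] at hfcard
    rw [Nat.cast_sub hfcard]
    push_cast
    rw [pow_succ]
    linarith
  have hA0 : (0:ℝ) < ((Fᶜ : Finset α).card : ℝ) := by linarith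
  have hA2 : 2 * K / (Fᶜ : Finset α).card + SS κ ≤ K := by
    have h1 : 2 * K / (Fᶜ : Finset α).card < 1 := by rw [div_lt_one hA0]; exact hAc
    have h2 : SS κ + 1 ≤ K := by
      have hp0r : (0:ℝ) ≤ (p0 : ℝ) := by positivity
      rw [hK]; linarith
    linarith
  have hεκ : ε ≤ κ / 4 := by linarith
  have st0 := State.base hκ hε hεκ hp0 hc
  obtain ⟨X, b, st, hfull⟩ := State.full hκ hκ1 hε hε1 hp01 hc
    (by rw [hK]; linarith : (p0 : ℝ) + SS (κ/2) ≤ K) hAc hA2 _ ζ 0 st0 le_rfl
  by_contra hcon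
  push Not at hcon
  obtain ⟨v, hv1, hv2⟩ := stageA hκ w hw hcon
  have hv3 : RR κ (v ++ w) ≤ K := by
    have hp0r : (0:ℝ) ≤ (p0 : ℝ) := by positivity
    rw [hK]; linarith
  obtain ⟨v', h1, h2⟩ := assemble hκ hκ1 hε hε1 hc st hAc hA2 hfull (v ++ w) hv1 hv3
  rw [← List.append_assoc] at h1
  obtain ⟨a, ha⟩ := hcon (v' ++ v) h1
  apply h2 a
  rw [← List.append_assoc]
  exact ha

end H42PF
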