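import Pool.Agent.H42.PF.Basic

namespace H42PF

variable {α : Type*} [DecidableEq α]

/-- Total weight of the partial repetitions at the head of `l`. -/
noncomputable def RR (κ : ℝ) (l : List α) : ℝ :=
  ∑ p ∈ Finset.range l.length, (1/2 : ℝ) ^ (hh κ (p+1) - lam l (p+1))

lemma RR_nil (κ : ℝ) : RR κ ([] : List α) = 0 := by simp [RR]

lemma pow_half_le_rpow {θ : ℝ} {m p : ℕ} (h : θ * p ≤ m) :
    (1/2 : ℝ) ^ m ≤ ((1/2 : ℝ) ^ θ) ^ p := by
  rw [← Real.rpow_natCast ((1/2 : ℝ) ^ θ) p, ← Real.rpow_mul (by norm_num), ← Real.rpow_natCast]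
  exact Real.rpow_le_rpow_of_exponent_ge (by norm_num) (by norm_num) h

lemma rpow_half_lt_one {θ : ℝ} (h : 0 < θ) : (1/2 : ℝ) ^ θ < 1 :=
  Real.rpow_lt_one (by norm_num) (by norm_num) h

lemma rpow_half_pos (θ : ℝ) : 0 < (1/2 : ℝ) ^ θ := Real.rpow_pos_of_pos (by norm_num) _

/-- the geometric bound -/
noncomputable def SS (θ : ℝ) : ℝ := 1 / (1 - (1/2 : ℝ) ^ θ)

lemma SS_pos {θ : ℝ} (h : 0 < θ) : 0 < SS θ := by
  unfold SS
  have := rpow_half_lt_one h
  apply div_pos one_pos; linarith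

lemma geom_bound {θ : ℝ} (h : 0 < θ) (n : ℕ) :
    ∑ p ∈ Finset.range n, ((1/2 : ℝ) ^ θ) ^ (p+1) ≤ SS θ := by
  have h1 := rpow_half_lt_one h
  have h0 := rpow_half_pos θ
  set r := (1/2 : ℝ) ^ θ with hr
  unfold SS
  rw [← hr]
  have h2 : ∑ p ∈ Finset.range n, r ^ (p+1) ≤ ∑ p ∈ Finset.range n, r ^ p := by
    apply Finset.sum_le_sum
    intro p _
    rw [pow_succ]
    have := pow_pos h0 p
    nlinarith
  have h3 : ∑ p ∈ Finset.range n, r ^ p ≤ 1 / (1 - r) := by
    rw [geom_sum_eq (ne_of_lt h1)]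
    have h4 : 0 < 1 - r := by linarith
    have h5 : (r ^ n - 1) / (r - 1) = (1 - r ^ n) / (1 - r) := by
      rw [← neg_sub 1 (r ^ n), ← neg_sub 1 r, neg_div_neg_eq]
    rw [h5]
    have h6 := pow_pos h0 n
    gcongr
    linarith
  linarith

lemma sum_hh_le {κ : ℝ} (hκ : 0 < κ) (n : ℕ) :
    ∑ p ∈ Finset.range n, (1/2 : ℝ) ^ (hh κ (p+1)) ≤ SS κ := by
  refine le_trans (Finset.sum_le_sum ?_) (geom_bound hκ n)
  intro p _
  apply pow_half_le_rpow
  exact le_hh κ (p+1)

/-- One greedy step. -/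
lemma greedy_step {κ K : ℝ} (hκ : 0 < κ) (A : Finset α)
    (hA1 : 2 * K < A.card) (hA2 : 2 * K / A.card + SS κ ≤ K)
    (l : List α) (hl : KF κ l) (hR : RR κ l ≤ K) :
    ∃ a ∈ A, KF κ (a :: l) ∧ RR κ (a :: l) ≤ K := by
  have hK : 0 ≤ K := by
    refine le_trans ?_ hR
    unfold RR
    positivity
  have hApos : (0:ℝ) < A.card := by linarith
  -- the weight matched by the letter a
  let Φ : α → ℝ := fun a => ∑ p ∈ Finset.range l.length,
    if l[p]? = some a then 2 * (1/2 : ℝ) ^ (hh κ (p+1) - lam l (p+1)) else 0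
  have hΦ : ∑ a ∈ A, Φ a ≤ 2 * K := by
    simp only [Φ]
    rw [Finset.sum_comm]
    have h1 : ∀ p ∈ Finset.range l.length,
        ∑ a ∈ A, (if l[p]? = some a then 2 * (1/2 : ℝ) ^ (hh κ (p+1) - lam l (p+1)) else 0)
        ≤ 2 * (1/2 : ℝ) ^ (hh κ (p+1) - lam l (p+1)) := by
      intro p hp
      rw [Finset.mem_range] at hp
      have h2 : l[p]? = some l[p] := List.getElem?_eq_getElem hp
      simp only [h2, Option.some.injEq]
      rw [Finset.sum_ite_eq]
      split_ifs
      · exact le_rfl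
      · positivity
    refine le_trans (Finset.sum_le_sum h1) ?_
    rw [← Finset.mul_sum]
    have : ∑ i ∈ Finset.range l.length, (1/2 : ℝ) ^ (hh κ (i+1) - lam l (i+1)) = RR κ l := rfl
    rw [this]
    linarith
  have hex : ∃ a ∈ A, Φ a ≤ 2 * K / A.card := by
    by_contra hcon
    push Not at hcon
    have hne : A.Nonempty := by
      rw [← Finset.card_pos]; exact_mod_cast hApos
    have h2 : ∑ a ∈ A, (2 * K / A.card) < ∑ a ∈ A, Φ a :=
      Finset.sum_lt_sum_of_nonempty hne hcon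
    rw [Finset.sum_const, nsmul_eq_mul, mul_div_cancel₀ _ (ne_of_gt hApos)] at h2
    linarith
  obtain ⟨a, haA, ha⟩ := hex
  have hlt1 : 2 * K / A.card < 1 := by
    rw [div_lt_one hApos]; exact hA1
  have hterm : ∀ p, p < l.length → l[p]? = some a →
      2 * (1/2 : ℝ) ^ (hh κ (p+1) - lam l (p+1)) < 1 := by
    intro p hp hpa
    have h1 : (if l[p]? = some a then 2 * (1/2 : ℝ) ^ (hh κ (p+1) - lam l (p+1)) else 0) ≤ Φ a := by
      apply Finset.single_le_sum (f := fun p => if l[p]? = some a then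
        2 * (1/2 : ℝ) ^ (hh κ (p+1) - lam l (p+1)) else 0)
      · intro q _; split_ifs <;> positivity
      · exact Finset.mem_range.mpr hp
    rw [if_pos hpa] at h1
    linarith
  have hlam2 : ∀ p, 1 ≤ p → l[p-1]? = some a → lam l p + 2 ≤ hh κ p := by
    intro p hp hpa
    have hlt : p - 1 < l.length := (List.getElem?_eq_some_iff.mp hpa).1
    have h1 := hterm (p-1) hlt hpa
    have e : p - 1 + 1 = p := by omega
    rw [e] at h1
    have h2 := KF_lam hκ hl hp
    by_contra h3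
    have h4 : hh κ p - lam l p = 1 := by omega
    rw [h4] at h1
    norm_num at h1
  refine ⟨a, haA, ⟨hl, ?_⟩, ?_⟩
  · intro p hp
    rw [lam_cons]
    split_ifs with h1
    · have := hlam2 p hp h1
      omega
    · exact hh_pos hκ hp
  · have h1 : RR κ (a :: l) ≤ ∑ p ∈ Finset.range (l.length + 1),
        ((if l[p]? = some a then 2 * (1/2 : ℝ) ^ (hh κ (p+1) - lam l (p+1)) else 0)
          + (1/2 : ℝ) ^ (hh κ (p+1))) := by
      unfold RR
      rw [List.length_cons]
      apply Finset.sum_le_sum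
      intro p hp
      rw [lam_cons]
      have e : p + 1 - 1 = p := by omega
      rw [e]
      split_ifs with h2
      · have h3 := hlam2 (p+1) (by omega) (by rw [e]; exact h2)
        have h4 : hh κ (p+1) - lam l (p+1) = (hh κ (p+1) - (lam l (p+1) + 1)) + 1 := by omega
        rw [h4, pow_succ]
        have h5 : (0:ℝ) < (1/2 : ℝ) ^ (hh κ (p+1)) := by positivity
        linarith
      · simp
    rw [Finset.sum_add_distrib] at h1
    have h2 : ∑ p ∈ Finset.range (l.length + 1),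
        (if l[p]? = some a then 2 * (1/2 : ℝ) ^ (hh κ (p+1) - lam l (p+1)) else 0) = Φ a := by
      rw [Finset.sum_range_succ]
      have h3 : l[l.length]? = none := by simp
      rw [h3]
      simp [Φ]
    rw [h2] at h1
    have h3 := sum_hh_le hκ (l.length + 1)
    linarith

/-- Greedy words of any length. -/
lemma greedy {κ K : ℝ} (hκ : 0 < κ) (A : Finset α)
    (hA1 : 2 * K < A.card) (hA2 : 2 * K / A.card + SS κ ≤ K)
    (l : List α) (hl : KF κ l) (hR : RR κ l ≤ K) (n : ℕ) :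
    ∃ T : List α, T.length = n ∧ (∀ x ∈ T, x ∈ A) ∧ KF κ (T ++ l) ∧ RR κ (T ++ l) ≤ K := by
  induction n with
  | zero => exact ⟨[], rfl, by simp, by simpa using hl, by simpa using hR⟩
  | succ n ih =>
    obtain ⟨T, hT1, hT2, hT3, hT4⟩ := ih
    obtain ⟨a, ha, h1, h2⟩ := greedy_step hκ A hA1 hA2 (T ++ l) hT3 hT4
    refine ⟨a :: T, by simp [hT1], ?_, by simpa using h1, by simpa using h2⟩
    intro x hx
    rcases List.mem_cons.mp hx with rfl | hx
    · exact ha
    · exact hT2 x hx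

/-- initial segment of a stream, most recent letter first -/
def lst {β : Type*} (ξ : ℕ → β) : ℕ → List β
  | 0 => []
  | (n+1) => ξ n :: lst ξ n

lemma lst_length {β : Type*} (ξ : ℕ → β) (n : ℕ) : (lst ξ n).length = n := by
  induction n with
  | zero => rfl
  | succ n ih => simp [lst, ih]

lemma lst_get {β : Type*} (ξ : ℕ → β) (n i : ℕ) (h : i < n) :
    (lst ξ n)[i]? = some (ξ (n - 1 - i)) := by
  induction n generalizing i with
  | zero => omega
  | succ n ih =>
    rcases i with _ | i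
    · simp [lst]
    · simp only [lst, List.getElem?_cons_succ]
      rw [ih i (by omega)]
      congr 2
      omega

lemma exists_seq {β : Type*} (P : List β → Prop) (A : Set β) (h0 : P [])
    (hs : ∀ l, P l → ∃ a ∈ A, P (a :: l)) :
    ∃ ξ : ℕ → β, (∀ n, ξ n ∈ A) ∧ ∀ n, P (lst ξ n) := by
  haveI : Nonempty β := ⟨(hs [] h0).choose⟩
  choose! nx hnx1 hnx2 using hs
  let sq : ℕ → List β := fun n => Nat.rec [] (fun _ l => nx l :: l) n
  have hsq0 : sq 0 = [] := rfl
  have hsq1 : ∀ n, sq (n+1) = nx (sq n) :: sq n := fun n => rfl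
  have hP : ∀ n, P (sq n) := by
    intro n
    induction n with
    | zero => exact h0
    | succ n ih => rw [hsq1]; exact hnx2 _ ih
  have he : ∀ n, lst (fun n => nx (sq n)) n = sq n := by
    intro n
    induction n with
    | zero => rfl
    | succ n ih => rw [hsq1]; simp [lst, ih]
  refine ⟨fun n => nx (sq n), fun n => hnx1 _ (hP n), fun n => ?_⟩
  rw [he]; exact hP n

/-- The code stream: an infinite word over `F` all of whose repetitions are short. -/
lemma exists_code {ε K : ℝ} (hε : 0 < ε) (F : Finset α) (hK : 0 ≤ K)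
    (hA1 : 2 * K < F.card) (hA2 : 2 * K / F.card + SS ε ≤ K) :
    ∃ ζ : ℕ → α, (∀ n, ζ n ∈ F) ∧ ∀ s p n, 1 ≤ p → (∀ i, i < n → ζ (s+i) = ζ (s+i+p)) →
      (n:ℝ) ≤ ε * p := by
  obtain ⟨ξ, h1, h2⟩ := exists_seq (fun l => KF ε l ∧ RR ε l ≤ K) (F : Set α)
    ⟨trivial, by rw [RR_nil]; exact hK⟩
    (fun l hl => greedy_step hε F hA1 hA2 l hl.1 hl.2)
  refine ⟨ξ, h1, ?_⟩
  intro s p n hp hrun
  by_contra hcon
  push Not at hcon
  have hn : hh ε p ≤ n := Nat.ceil_le.mpr hcon.le
  have h3 := (h2 (s + n + p)).1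
  have h4 := KF_lam hε h3 hp
  have h5 : n ≤ lam (lst ξ (s+n+p)) p := by
    rw [le_lam hp]
    intro i hi
    refine ⟨ξ (s + n + p - 1 - i), lst_get _ _ _ (by omega), ?_⟩
    rw [lst_get _ _ _ (by omega)]
    have h6 := hrun (n - 1 - i) (by omega)
    have e1 : s + n + p - 1 - (i + p) = s + (n - 1 - i) := by omega
    have e2 : s + n + p - 1 - i = s + (n - 1 - i) + p := by omega
    rw [e1, e2, h6]
  omega

end H42PF
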