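import Pool.Agent.H42.PF.Greedy

namespace H42PF

variable {α : Type*}

/-- put a letter in front of a stream -/
def cns (a : α) (X : ℕ → α) : ℕ → α
  | 0 => a
  | (n+1) => X n

@[simp] lemma cns_zero (a : α) (X : ℕ → α) : cns a X 0 = a := rfl
@[simp] lemma cns_succ (a : α) (X : ℕ → α) (n : ℕ) : cns a X (n+1) = X n := rfl

lemma cns_pos (a : α) (X : ℕ → α) {n : ℕ} (h : 1 ≤ n) : cns a X n = X (n-1) := by
  obtain ⟨m, rfl⟩ : ∃ m, n = m + 1 := ⟨n - 1, by omega⟩
  simp

/-- the stream has no repetition of exponent at least `1 + κ` -/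
def SF (κ : ℝ) (X : ℕ → α) : Prop :=
  ∀ s p, 1 ≤ p → ¬ ∀ i, i < hh κ p → X (s+i) = X (s+i+p)

lemma SF_of_cns {κ : ℝ} {a : α} {X : ℕ → α} (h : SF κ (cns a X)) : SF κ X := by
  intro s p hp hrun
  apply h (s+1) p hp
  intro i hi
  have e1 : s + 1 + i = (s + i) + 1 := by omega
  have e2 : s + 1 + i + p = (s + i + p) + 1 := by omega
  rw [e2, e1, cns_succ, cns_succ]
  exact hrun i hi

/-- the invariant of the nested construction -/
structure State (κ ε : ℝ) (p0 : ℕ) (F : Finset α) (ζ X : ℕ → α) (b : ℕ) : Prop where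
  code : ∀ i, X (b+i) = ζ i
  nf : b = 0 ∨ ∃ i, i < b ∧ X i ∉ F
  sf : SF κ X
  low : ∀ a, SF κ (cns a X) → ∀ p m, p0 ≤ p → (∀ i, i < m → cns a X i = cns a X (i+p)) →
    (m:ℝ) ≤ κ * p / 2

/-- The standing assumptions on the code stream. -/
structure Code (ε : ℝ) (F : Finset α) (ζ : ℕ → α) : Prop where
  mem : ∀ i, ζ i ∈ F
  run : ∀ s p n, 1 ≤ p → (∀ i, i < n → ζ (s+i) = ζ (s+i+p)) → (n:ℝ) ≤ ε * p
  good : ∀ N0 : ℕ, ∃ P, N0 ≤ P ∧ ∀ s p q n, 1 ≤ q → p + q = P →
    (∀ i, i < n → ζ (s+i) = ζ (s+i+q)) → (n:ℝ) ≤ ε * p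

lemma State.mem {κ ε : ℝ} {p0 : ℕ} {F : Finset α} {ζ X : ℕ → α} {b : ℕ}
    (st : State κ ε p0 F ζ X b) (hc : Code ε F ζ) {i : ℕ} (h : b ≤ i) : X i ∈ F := by
  obtain ⟨j, rfl⟩ : ∃ j, i = b + j := ⟨i - b, by omega⟩
  rw [st.code]; exact hc.mem j

/-- runs with a large shift are short -/
lemma State.short {κ ε : ℝ} {p0 : ℕ} {F : Finset α} {ζ X : ℕ → α} {b : ℕ}
    (st : State κ ε p0 F ζ X b) (hc : Code ε F ζ) (hε : 0 ≤ ε) (a : α) {p m : ℕ} (hp : 1 ≤ p)
    (hbp : b ≤ p) (hrun : ∀ i, i < m → cns a X i = cns a X (i+p)) :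
    (m:ℝ) ≤ b + 1 + ε * p := by
  have hεp : 0 ≤ ε * p := by positivity
  rcases st.nf with h0 | ⟨i, hib, hiF⟩
  · subst h0
    rcases m with _ | m
    · push_cast; linarith
    · have h1 : ((m:ℕ):ℝ) ≤ ε * p := by
        apply hc.run 0 p m hp
        intro i hi
        have h2 := hrun (i+1) (by omega)
        have e : i + 1 + p = (i + p) + 1 := by omega
        rw [e, cns_succ, cns_succ] at h2
        have h3 := st.code i
        have h4 := st.code (i+p)
        rw [Nat.zero_add] at h3 h4
        rw [Nat.zero_add, ← h3, ← h4]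
        exact h2
      push_cast
      linarith
  · have h1 : m ≤ i + 1 := by
      by_contra hcon
      push Not at hcon
      have h2 := hrun (i+1) hcon
      have e : i + 1 + p = (i + p) + 1 := by omega
      rw [e, cns_succ, cns_succ] at h2
      apply hiF
      rw [h2]
      exact st.mem hc (by omega)
    have h2 : (m:ℝ) ≤ b := by exact_mod_cast (by omega : m ≤ b)
    linarith

/-- the initial state -/
lemma State.base {κ ε : ℝ} (hκ : 0 < κ) (hε : 0 < ε) (hεκ : ε ≤ κ / 4) {p0 : ℕ}
    (hp0 : 4 ≤ κ * p0) {F : Finset α} {ζ : ℕ → α} (hc : Code ε F ζ) :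
    State κ ε p0 F ζ ζ 0 := by
  refine ⟨fun i => by simp, Or.inl rfl, ?_, ?_⟩
  · intro s p hp hrun
    have h1 := hc.run s p (hh κ p) hp hrun
    have h2 := le_hh κ p
    have hp' : (1:ℝ) ≤ p := by exact_mod_cast hp
    nlinarith
  · intro a _ p m hp hrun
    have hp' : (p0:ℝ) ≤ p := by exact_mod_cast hp
    have h4 : 4 ≤ κ * p := by nlinarith
    rcases m with _ | m
    · push_cast; linarith
    · have hp1 : 1 ≤ p := by
        by_contra h
        have : p = 0 := by omega
        subst this
        push_cast at h4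
        linarith
      have h1 : ((m:ℕ):ℝ) ≤ ε * p := by
        apply hc.run 0 p m hp1
        intro i hi
        have h2 := hrun (i+1) (by omega)
        have e : i + 1 + p = (i + p) + 1 := by omega
        rw [e, cns_succ, cns_succ] at h2
        rw [Nat.zero_add]
        exact h2
      have h5 : ε * p ≤ κ * p / 4 := by
        have hp'' : (0:ℝ) ≤ p := by positivity
        nlinarith
      push_cast
      linarith

section filler

variable [DecidableEq α] [Fintype α]

/-- Fillers of any length exist. -/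
lemma State.filler {κ ε K : ℝ} (hκ : 0 < κ) (hκ1 : κ ≤ 1) {p0 : ℕ} {F : Finset α}
    {ζ X : ℕ → α} {b : ℕ}
    (st : State κ ε p0 F ζ X b) (hc : Code ε F ζ)
    (hK : p0 + SS (κ/2) ≤ K)
    (hA1 : 2 * K < (Fᶜ : Finset α).card) (hA2 : 2 * K / (Fᶜ : Finset α).card + SS κ ≤ K)
    (a : α) (ha : SF κ (cns a X)) (τ : ℕ) :
    ∃ X2 : ℕ → α, (∀ i, i < τ → X2 i ∉ F) ∧ (∀ i, X2 (τ + i) = cns a X i) ∧ SF κ X2 := by
  classical
  set L := 2 * (τ + b) + 5 with hL
  set l : List α := (List.range L).map (cns a X) with hl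
  have hlget : ∀ i, i < L → l[i]? = some (cns a X i) := by
    intro i hi
    rw [hl]
    simp [hi]
  have hllen : l.length = L := by simp [hl]
  have hlget' : ∀ i c, l[i]? = some c → c = cns a X i ∧ i < L := by
    intro i c h
    have h1 : i < l.length := (List.getElem?_eq_some_iff.mp h).1
    rw [hllen] at h1
    rw [hlget i h1] at h
    exact ⟨by simpa using h.symm, h1⟩
  have hKF : KF κ l := by
    rw [KF_iff hκ]
    rintro s p ⟨hp, hrun⟩
    apply ha s p hp
    intro i hi
    obtain ⟨c, h1, h2⟩ := hrun i hi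
    rw [← (hlget' _ _ h1).1, ← (hlget' _ _ h2).1]
  have hRR : RR κ l ≤ K := by
    refine le_trans ?_ hK
    unfold RR
    have h1 : ∀ p ∈ Finset.range l.length, (1/2 : ℝ) ^ (hh κ (p+1) - lam l (p+1)) ≤
        (if p < p0 then (1:ℝ) else 0) + ((1/2 : ℝ) ^ (κ/2)) ^ (p+1) := by
      intro p _
      have h0 : 0 < ((1/2 : ℝ) ^ (κ/2)) ^ (p+1) := pow_pos (rpow_half_pos _) _
      split_ifs with h2
      · have : (1/2 : ℝ) ^ (hh κ (p+1) - lam l (p+1)) ≤ 1 :=
          pow_le_one₀ (by norm_num) (by norm_num)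
        linarith
      · rw [zero_add]
        apply pow_half_le_rpow
        have h3 := st.low a ha (p+1) (lam l (p+1)) (by omega) (by
          intro i hi
          obtain ⟨c, h4, h5⟩ := (le_lam (by omega : 1 ≤ p+1) l (lam l (p+1))).mp le_rfl i hi
          rw [← (hlget' _ _ h4).1, ← (hlget' _ _ h5).1])
        have h4 := le_hh κ (p+1)
        have h5 := KF_lam hκ hKF (by omega : 1 ≤ p+1)
        have h6 : ((hh κ (p+1) - lam l (p+1) : ℕ):ℝ) = (hh κ (p+1) : ℝ) - lam l (p+1) := by
          rw [Nat.cast_sub h5.le]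
        rw [h6]
        linarith
    refine le_trans (Finset.sum_le_sum h1) ?_
    rw [Finset.sum_add_distrib]
    have h2 := geom_bound (θ := κ/2) (by positivity) l.length
    have h3 : ∑ p ∈ Finset.range l.length, (if p < p0 then (1:ℝ) else 0) ≤ p0 := by
      rw [← Finset.sum_filter, Finset.sum_const, nsmul_eq_mul, mul_one]
      have : (Finset.filter (fun p => p < p0) (Finset.range l.length)).card ≤
          (Finset.range p0).card := by
        apply Finset.card_le_card
        intro x hx
        rw [Finset.mem_filter] at hx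
        rw [Finset.mem_range]; exact hx.2
      rw [Finset.card_range] at this
      exact_mod_cast this
    linarith
  obtain ⟨T, hT1, hT2, hT3, _⟩ := greedy hκ (Fᶜ : Finset α) hA1 hA2 l hKF hRR τ
  refine ⟨fun i => if i < τ then (T[i]?).getD a else cns a X (i - τ), ?_, ?_, ?_⟩
  · intro i hi
    simp only [if_pos hi]
    have h1 : i < T.length := by omega
    rw [List.getElem?_eq_getElem h1]
    simp only [Option.getD_some]
    have := hT2 (T[i]) (List.getElem_mem h1)
    simpa using this
  · intro i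
    simp
  · set X2 : ℕ → α := fun i => if i < τ then (T[i]?).getD a else cns a X (i - τ) with hX2
    have hX2T : ∀ i, i < τ → X2 i ∉ F := by
      intro i hi
      simp only [hX2, if_pos hi]
      have h1 : i < T.length := by omega
      rw [List.getElem?_eq_getElem h1]
      simp only [Option.getD_some]
      have := hT2 (T[i]) (List.getElem_mem h1)
      simpa using this
    have hget : ∀ i, i < τ + L → (T ++ l)[i]? = some (X2 i) := by
      intro i hi
      by_cases h1 : i < τ
      · rw [List.getElem?_append_left (by omega)]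
        simp only [hX2, if_pos h1]
        have h2 : i < T.length := by omega
        rw [List.getElem?_eq_getElem h2]
        simp
      · rw [List.getElem?_append_right (by omega)]
        simp only [hX2, if_neg h1]
        rw [hT1, hlget (i - τ) (by omega)]
    intro s p hp hrun
    by_cases hs : τ ≤ s
    · apply ha (s - τ) p hp
      intro i hi
      have h1 := hrun i hi
      simp only [hX2] at h1
      rw [if_neg (by omega), if_neg (by omega)] at h1
      have e1 : s - τ + i = s + i - τ := by omega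
      have e2 : s - τ + i + p = s + i + p - τ := by omega
      rw [e2, e1]; exact h1
    · push Not at hs
      have h0 := hrun 0 (hh_pos hκ hp)
      rw [Nat.add_zero] at h0
      have h1 : s + p < τ + 1 + b := by
        by_contra hcon
        push Not at hcon
        apply hX2T s hs
        rw [h0]
        simp only [hX2]
        rw [if_neg (by omega), cns_pos _ _ (by omega)]
        exact st.mem hc (by omega)
      have h2 := hh_le_self hκ1 p
      apply (KF_iff hκ (T ++ l)).mp hT3 s p
      refine ⟨hp, fun i hi => ⟨X2 (s+i), hget _ (by omega), ?_⟩⟩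
      rw [hrun i hi]
      exact hget _ (by omega)

end filler

end H42PF
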