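import Pool.Agent.H42.PF.Final

namespace H42PF

variable {α : Type*} [DecidableEq α]

lemma KF_prefix {κ : ℝ} (hκ : 0 < κ) {l m : List α} (h : KF κ (l ++ m)) : KF κ l := by
  rw [KF_iff hκ] at h ⊢
  rintro s p ⟨hp, hrun⟩
  apply h s p
  refine ⟨hp, fun i hi => ?_⟩
  obtain ⟨a, h1, h2⟩ := hrun i hi
  have g1 := (List.getElem?_eq_some_iff.mp h1).1
  have g2 := (List.getElem?_eq_some_iff.mp h2).1
  refine ⟨a, ?_, ?_⟩
  · rw [List.getElem?_append_left g1]; exact h1
  · rw [List.getElem?_append_left g2]; exact h2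

lemma KF_reverse {κ : ℝ} (hκ : 0 < κ) {l : List α} (h : KF κ l) : KF κ l.reverse := by
  rw [KF_iff hκ] at h ⊢
  rintro s p ⟨hp, hrun⟩
  have hpos := hh_pos hκ hp
  have htot : s + p + hh κ p ≤ l.length := by
    obtain ⟨c, _, g2⟩ := hrun (hh κ p - 1) (by omega)
    have := (List.getElem?_eq_some_iff.mp g2).1
    rw [List.length_reverse] at this
    omega
  apply h (l.length - s - p - hh κ p) p
  refine ⟨hp, fun i hi => ?_⟩
  obtain ⟨a, h1, h2⟩ := hrun (hh κ p - 1 - i) (by omega)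
  rw [List.getElem?_reverse (by omega)] at h1 h2
  refine ⟨a, ?_, ?_⟩
  · rw [← h2]; congr 1; omega
  · rw [← h1]; congr 1; omega

lemma KF_reverse_iff {κ : ℝ} (hκ : 0 < κ) {l : List α} : KF κ l.reverse ↔ KF κ l := by
  constructor
  · intro h
    have := KF_reverse hκ h
    rwa [List.reverse_reverse] at this
  · exact KF_reverse hκ

/-- Two-sided version. -/
theorem two_sided {κ : ℝ} (hκ : 0 < κ)
    (hleft : ∀ w : List α, KF κ w → ∃ v, KF κ (v ++ w) ∧ ∀ a, ¬ KF κ (a :: (v ++ w)))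
    (w : List α) (hw : KF κ w) :
    ∃ x y, KF κ (x ++ w ++ y) ∧ (∀ a, ¬ KF κ (a :: (x ++ w ++ y))) ∧
      ∀ a, ¬ KF κ (x ++ w ++ y ++ [a]) := by
  obtain ⟨x, hx1, hx2⟩ := hleft w hw
  obtain ⟨y, hy1, hy2⟩ := hleft (x ++ w).reverse (KF_reverse hκ hx1)
  have e : (y ++ (x ++ w).reverse).reverse = x ++ w ++ y.reverse := by
    rw [List.reverse_append, List.reverse_reverse]
  refine ⟨x, y.reverse, ?_, ?_, ?_⟩
  · rw [← e]; exact KF_reverse hκ hy1
  · intro a ha
    apply hx2 a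
    rw [← List.cons_append] at ha
    exact KF_prefix hκ ha
  · intro a ha
    apply hy2 a
    rw [← KF_reverse_iff hκ, List.reverse_cons, e]
    exact ha

end H42PF
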