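import Pool.Agent.H42.PF.Nest

namespace H42PF

variable {α : Type*}

/-- The arithmetic facts about the lengths in one step. -/
structure Len (κ ε : ℝ) (ζ : ℕ → α) (b P n τ : ℕ) : Prop where
  hP : P = n + τ + 1
  hh_eq : hh κ P = n + 1
  tau : b + 3 ≤ τ
  nb : 2 * b + 5 ≤ n
  c1 : 100 * ((b:ℝ) + 2) ≤ κ * n + 1
  c3 : 100 * ((b:ℝ) + 2) ≤ κ * (τ + 1)
  good : ∀ s p q m, 1 ≤ q → p + q = P → (∀ i, i < m → ζ (s+i) = ζ (s+i+q)) → (m:ℝ) ≤ ε * p
  eps : 4 * ε ≤ κ

lemma exists_len {κ ε : ℝ} (hκ : 0 < κ) (hκ1 : κ < 1) (hε : 4 * ε ≤ κ)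
    {F : Finset α} {ζ : ℕ → α} (hc : Code ε F ζ) (b : ℕ) : ∃ P n τ, Len κ ε ζ b P n τ := by
  set C : ℝ := κ ^ 2 * (1 - κ) with hC
  have h1κ : 0 < 1 - κ := by linarith
  have hCpos : 0 < C := by positivity
  obtain ⟨P, hPN, hgood⟩ := hc.good ⌈100 * ((b:ℝ) + 2) / C⌉₊
  have hb0 : (0:ℝ) ≤ b := by positivity
  have hPC : 100 * ((b:ℝ) + 2) ≤ C * P := by
    have h1 : 100 * ((b:ℝ) + 2) / C ≤ ⌈100 * ((b:ℝ) + 2) / C⌉₊ := Nat.le_ceil _
    have h2 : ((⌈100 * ((b:ℝ) + 2) / C⌉₊ : ℕ):ℝ) ≤ P := by exact_mod_cast hPN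
    have h3 := le_trans h1 h2
    rw [div_le_iff₀ hCpos] at h3
    linarith
  have hP0 : (0:ℝ) ≤ P := by positivity
  -- consequences
  have k1 : C ≤ κ ^ 2 := by
    have : κ ^ 2 * (1 - κ) ≤ κ ^ 2 * 1 := by
      apply mul_le_mul_of_nonneg_left _ (by positivity)
      linarith
    linarith
  have k2 : C ≤ κ * (1 - κ) := by
    have h3 : 0 ≤ κ * (1 - κ) * (1 - κ) := by positivity
    have : κ * (1 - κ) - C = κ * (1 - κ) * (1 - κ) := by rw [hC]; ring
    linarith
  have k3 : 100 * ((b:ℝ) + 2) ≤ κ ^ 2 * P := by nlinarith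
  have k4 : 100 * ((b:ℝ) + 2) ≤ κ * (1 - κ) * P := by nlinarith
  have k5 : 100 * ((b:ℝ) + 2) ≤ (1 - κ) * P := by
    have h3 : 0 ≤ (1 - κ) * P := by positivity
    nlinarith
  have k6 : 100 * ((b:ℝ) + 2) ≤ κ * P := by
    have h3 : 0 ≤ κ * P := by positivity
    nlinarith
  have hPbig : (200:ℝ) ≤ P := by
    have h3 : κ * P ≤ P := by nlinarith
    linarith
  have hP1 : 1 ≤ P := by
    have : (1:ℝ) ≤ P := by linarith
    exact_mod_cast this
  have hhpos := hh_pos hκ hP1
  have hhle := hh_le_self hκ1.le P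
  have g1 := le_hh κ P
  have g2 := hh_lt hκ.le P
  set n := hh κ P - 1 with hn
  have hn1 : hh κ P = n + 1 := by omega
  set τ := P - 1 - n with hτ
  have hPe : P = n + τ + 1 := by omega
  have hnr : (hh κ P : ℝ) = n + 1 := by rw [hn1]; push_cast; ring
  have hPr : (P:ℝ) = n + τ + 1 := by
    have : ((P:ℕ):ℝ) = ((n + τ + 1 : ℕ) : ℝ) := by exact_mod_cast hPe
    rw [this]; push_cast; ring
  rw [hnr] at g1 g2
  have t1 : (1 - κ) * P ≤ τ + 1 := by linarith
  refine ⟨P, n, τ, hPe, hn1, ?_, ?_, ?_, ?_, hgood, hε⟩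
  · have : ((b + 3 : ℕ):ℝ) ≤ τ := by push_cast; linarith
    exact_mod_cast this
  · have : ((2 * b + 5 : ℕ):ℝ) ≤ n := by push_cast; linarith
    exact_mod_cast this
  · have : κ * (κ * P) ≤ κ * (n + 1) := mul_le_mul_of_nonneg_left g1 hκ.le
    nlinarith
  · have : κ * ((1 - κ) * P) ≤ κ * (τ + 1) := mul_le_mul_of_nonneg_left t1 hκ.le
    linarith

/-- The facts about the new stream. -/
structure New (F : Finset α) (ζ X Y : ℕ → α) (a : α) (b P n τ : ℕ) : Prop where
  y1 : ∀ i, i < n → Y i = X i
  yT : ∀ i, n ≤ i → i < n + τ → Y i ∉ F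
  ya : Y (n + τ) = a
  yR : ∀ i, Y (P + i) = X i

lemma New.code {F : Finset α} {ζ X Y : ℕ → α} {a : α} {b P n τ : ℕ}
    (hn : New F ζ X Y a b P n τ) (hX : ∀ i, X (b+i) = ζ i) (i : ℕ) : Y (P + b + i) = ζ i := by
  have : P + b + i = P + (b + i) := by omega
  rw [this, hn.yR, hX]

/-- The new stream has no repetition. -/
lemma new_sf {κ ε : ℝ} (hκ : 0 < κ) (hκ1 : κ < 1) (hε : 0 < ε) {p0 : ℕ} {F : Finset α}
    {ζ X Y X2 : ℕ → α} {a : α} {b P n τ : ℕ} (st : State κ ε p0 F ζ X b) (hc : Code ε F ζ)
    (hL : Len κ ε ζ b P n τ) (hn : New F ζ X Y a b P n τ) (hX2 : SF κ X2)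
    (hY2 : ∀ i, Y (n + i) = X2 i) : SF κ Y := by
  obtain ⟨hP, hhP, htau, hnb, c1, c3, hgood, heps⟩ := hL
  have hb0 : (0:ℝ) ≤ b := by positivity
  have hYC : ∀ i, b ≤ i → i < n → Y i ∈ F := by
    intro i h1 h2
    rw [hn.y1 i h2]; exact st.mem hc h1
  have hYR' : ∀ i, P + b ≤ i → Y i ∈ F := by
    intro i h1
    obtain ⟨j, rfl⟩ : ∃ j, i = P + b + j := ⟨i - (P + b), by omega⟩
    rw [hn.code st.code]; exact hc.mem j
  intro s p hp hrun
  have hp' : (1:ℝ) ≤ p := by exact_mod_cast hp
  have hpos := hh_pos hκ hp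
  have hκp := le_hh κ p
  set h := hh κ p with hh_def
  -- case 1
  by_cases c1' : n ≤ s
  · apply hX2 (s - n) p hp
    intro i hi
    rw [← hY2, ← hY2]
    have e1 : n + (s - n + i) = s + i := by omega
    have e2 : n + (s - n + i + p) = s + i + p := by omega
    rw [e1, e2]; exact hrun i hi
  push Not at c1'
  by_cases c2' : s + p + h ≤ n
  · apply st.sf s p hp
    intro i hi
    rw [← hh_def] at hi
    rw [← hn.y1 (s+i) (by omega), ← hn.y1 (s+i+p) (by omega)]
    exact hrun i hi
  push Not at c2'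
  by_cases c3'' : n < s + h
  · -- case α
    have e1 : Y (n-1) = Y (n-1+p) := by
      have := hrun (n-1-s) (by omega)
      have g1 : s + (n-1-s) = n-1 := by omega
      rw [g1] at this; exact this
    have e2 : Y n = Y (n+p) := by
      have := hrun (n-s) (by omega)
      have g1 : s + (n-s) = n := by omega
      rw [g1] at this; exact this
    have f1 : Y (n-1+p) ∈ F := by rw [← e1]; exact hYC _ (by omega) (by omega)
    have f2 : τ + 1 ≤ p := by
      by_contra hcon
      exact hn.yT (n-1+p) (by omega) (by omega) f1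
    have f3 : (2 * b + 4 : ℕ) ≤ h := by
      have g1 : κ * (τ + 1) ≤ κ * p := by
        apply mul_le_mul_of_nonneg_left _ hκ.le
        exact_mod_cast f2
      have : ((2 * b + 4 : ℕ):ℝ) ≤ h := by push_cast; linarith
      exact_mod_cast this
    have f4 : ¬ (n + b < s + h) := by
      intro hcon
      have g1 := hrun (n + b - s) (by omega)
      have g2 : s + (n + b - s) = n + b := by omega
      rw [g2] at g1
      apply hn.yT (n+b) (by omega) (by omega)
      rw [g1]
      exact hYR' _ (by omega)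
    have f5 : n + p < P + b := by
      by_contra hcon
      push Not at hcon
      apply hn.yT n le_rfl (by omega)
      rw [e2]; exact hYR' _ hcon
    have g1 := hrun (n - b - 2 - s) (by omega)
    have g2 : s + (n - b - 2 - s) = n - b - 2 := by omega
    rw [g2] at g1
    apply hn.yT (n - b - 2 + p) (by omega) (by omega)
    rw [← g1]
    exact hYC _ (by omega) (by omega)
  · -- case β
    push Not at c3''
    set j := s + h - 1 with hj
    have ej : Y j = Y (j+p) := by
      have := hrun (h-1) (by omega)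
      have g1 : s + (h-1) = j := by omega
      rw [g1] at this; exact this
    by_cases hjb : j < b
    · have g1 : (h:ℝ) ≤ b := by exact_mod_cast (by omega : h ≤ b)
      have g2 : (n:ℝ) < p + b := by exact_mod_cast (by omega : n < p + b)
      have g3 : κ * n ≤ κ * (p + b) := mul_le_mul_of_nonneg_left g2.le hκ.le
      have g4 : κ * b ≤ b := by nlinarith
      linarith
    · push Not at hjb
      have f1 : Y (j+p) ∈ F := by rw [← ej]; exact hYC _ hjb (by omega)
      have f2 : n + τ ≤ j + p := by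
        by_contra hcon
        exact hn.yT (j+p) (by omega) (by omega) f1
      by_cases hpP : p = P
      · have : h = n + 1 := by rw [hh_def, hpP]; exact hhP
        omega
      have f3 : n + τ ≤ max s b + p := by
        by_contra hcon
        push Not at hcon
        have g1 := hrun (n + τ - 1 - p - s) (by omega)
        have g2 : s + (n + τ - 1 - p - s) = n + τ - 1 - p := by omega
        rw [g2] at g1
        apply hn.yT (n + τ - 1 - p + p) (by omega) (by omega)
        rw [← g1]
        exact hYC _ (by omega) (by omega)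
      set s2 := max (max s b) (P + b - p) with hs2
      have f4 : s2 ≤ max s b + b + 1 := by omega
      have f5 : b ≤ s2 := by omega
      have f6 : s ≤ s2 := by omega
      have f7 : P + b ≤ s2 + p := by omega
      have f8 : h ≤ (j + 1 - s2) + (2 * b + 1) := by omega
      have f8' : (h:ℝ) ≤ ((j + 1 - s2 : ℕ):ℝ) + (2 * b + 1) := by exact_mod_cast f8
      have f9 : κ * (τ + 1) ≤ κ * p := by
        apply mul_le_mul_of_nonneg_left _ hκ.le
        exact_mod_cast (by omega : τ + 1 ≤ p)
      have hrel : ∀ t, t < j + 1 - s2 → Y (s2 + t) = Y (s2 + t + p) := by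
        intro t ht
        have g1 := hrun (s2 + t - s) (by omega)
        have g2 : s + (s2 + t - s) = s2 + t := by omega
        rw [g2] at g1; exact g1
      rcases lt_or_gt_of_ne hpP with hlt | hgt
      · have g1 : ((j + 1 - s2 : ℕ):ℝ) ≤ ε * p := by
          apply hgood (s2 + p - P - b) p (P-p) _ (by omega) (by omega)
          intro t ht
          have g2 := hrel t ht
          have g3 : Y (s2 + t) = ζ (s2 + t - b) := by
            rw [hn.y1 _ (by omega)]
            have : s2 + t = b + (s2 + t - b) := by omega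
            rw [this, st.code]
            congr 1; omega
          have g4 : Y (s2 + t + p) = ζ (s2 + t + p - P - b) := by
            have : s2 + t + p = P + b + (s2 + t + p - P - b) := by omega
            rw [this, hn.code st.code]
            congr 1; omega
          rw [g3, g4] at g2
          have e1 : s2 + p - P - b + t = s2 + t + p - P - b := by omega
          have e2 : s2 + p - P - b + t + (P - p) = s2 + t - b := by omega
          rw [e2, e1]; exact g2.symm
        have g7 : 4 * (ε * p) ≤ κ * p := by nlinarith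
        linarith
      · have g1 : ((j + 1 - s2 : ℕ):ℝ) ≤ ε * ((p - P : ℕ):ℝ) := by
          apply hc.run (s2 - b) (p-P) _ (by omega)
          intro t ht
          have g2 := hrel t ht
          have g3 : Y (s2 + t) = ζ (s2 + t - b) := by
            rw [hn.y1 _ (by omega)]
            have : s2 + t = b + (s2 + t - b) := by omega
            rw [this, st.code]
            congr 1; omega
          have g4 : Y (s2 + t + p) = ζ (s2 + t + p - P - b) := by
            have : s2 + t + p = P + b + (s2 + t + p - P - b) := by omega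
            rw [this, hn.code st.code]
            congr 1; omega
          rw [g3, g4] at g2
          have e1 : s2 - b + t = s2 + t - b := by omega
          have e2 : s2 - b + t + (p - P) = s2 + t + p - P - b := by omega
          rw [e2, e1]; exact g2
        have g5 : ((p - P : ℕ):ℝ) ≤ p := by exact_mod_cast (by omega : p - P ≤ p)
        have g6 : ε * ((p - P : ℕ):ℝ) ≤ ε * p := mul_le_mul_of_nonneg_left g5 hε.le
        have g7 : 4 * (ε * p) ≤ κ * p := by nlinarith
        linarith

/-- The letter `a` is blocked in front of the new stream. -/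
lemma new_block {κ ε : ℝ} {F : Finset α} {ζ X Y : ℕ → α} {a : α} {b P n τ : ℕ}
    (hL : Len κ ε ζ b P n τ) (hn : New F ζ X Y a b P n τ) : ¬ SF κ (cns a Y) := by
  intro h
  have hP := hL.hP
  apply h 0 P (by omega)
  intro i hi
  rw [hL.hh_eq] at hi
  rw [Nat.zero_add]
  rcases i with _ | i
  · rw [cns_zero, Nat.zero_add, cns_pos _ _ (by omega)]
    have : P - 1 = n + τ := by omega
    rw [this, hn.ya]
  · have e : i + 1 + P = (P + i) + 1 := by omega
    rw [e, cns_succ, cns_succ, hn.yR, hn.y1 i (by omega)]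

/-- Letters that are free in front of the new stream were free before. -/
lemma new_free {κ ε : ℝ} (hκ : 0 < κ) (hκ1 : κ < 1) (hε : 0 < ε) {p0 : ℕ} {F : Finset α}
    {ζ X Y : ℕ → α} {a : α} {b P n τ : ℕ} (st : State κ ε p0 F ζ X b) (hc : Code ε F ζ)
    (hL : Len κ ε ζ b P n τ) (hn : New F ζ X Y a b P n τ) (a' : α) (ha' : SF κ (cns a' Y)) :
    SF κ (cns a' X) := by
  intro s p hp hrun
  rcases s with _ | s
  · have hb0 : (0:ℝ) ≤ b := by positivity
    have hp' : (1:ℝ) ≤ p := by exact_mod_cast hp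
    have hκp := le_hh κ p
    have hrun' : ∀ i, i < hh κ p → cns a' X i = cns a' X (i+p) := by
      intro i hi
      have := hrun i hi
      rw [Nat.zero_add] at this; exact this
    have heps := hL.eps
    have c1 := hL.c1
    have h1 : κ * p ≤ b + 1 + ε * p := by
      by_cases hbp : b ≤ p
      · have := st.short hc hε.le a' hp hbp hrun'
        linarith
      · push Not at hbp
        have h2 : (p:ℝ) ≤ b := by exact_mod_cast hbp.le
        have h3 : κ * p ≤ 1 * p := mul_le_mul_of_nonneg_right hκ1.le (by linarith)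
        have h4 : 0 ≤ ε * p := by positivity
        linarith
    have h2 : 4 * (ε * p) ≤ κ * p := by nlinarith
    have h3 : κ * (2 * p) ≤ κ * n := by linarith
    have h4 : (2 * (p:ℝ)) ≤ n := le_of_mul_le_mul_left h3 hκ
    have h5 : 2 * p ≤ n := by exact_mod_cast h4
    have h6 := hh_le_self hκ1.le p
    have hsame : ∀ i, i ≤ n → cns a' Y i = cns a' X i := by
      intro i hi
      rcases i with _ | i
      · rfl
      · rw [cns_succ, cns_succ, hn.y1 i (by omega)]
    apply ha' 0 p hp
    intro i hi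
    rw [Nat.zero_add, hsame i (by omega), hsame (i+p) (by omega)]
    exact hrun' i hi
  · apply st.sf s p hp
    intro i hi
    have h1 := hrun i hi
    have e1 : s + 1 + i = (s + i) + 1 := by omega
    have e2 : s + 1 + i + p = (s + i + p) + 1 := by omega
    rw [e2, e1, cns_succ, cns_succ] at h1
    exact h1

/-- The partial repetitions at the head of the new stream are short. -/
lemma new_low {κ ε : ℝ} (hκ : 0 < κ) (hκ1 : κ < 1) (hε : 0 < ε) {p0 : ℕ} {F : Finset α}
    {ζ X Y : ℕ → α} {a : α} {b P n τ : ℕ} (st : State κ ε p0 F ζ X b) (hc : Code ε F ζ)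
    (hp01 : 1 ≤ p0)
    (hL : Len κ ε ζ b P n τ) (hn : New F ζ X Y a b P n τ) (a' : α) (ha' : SF κ (cns a' Y))
    (p m : ℕ) (hp0 : p0 ≤ p) (hrun : ∀ i, i < m → cns a' Y i = cns a' Y (i+p)) :
    (m:ℝ) ≤ κ * p / 2 := by
  have hX := new_free hκ hκ1 hε st hc hL hn a' ha'
  have hbl := new_block hL hn
  obtain ⟨hP, hhP, htau, hnb, c1, c3, hgood, heps⟩ := hL
  have hb0 : (0:ℝ) ≤ b := by positivity
  have hp : 1 ≤ p := by omega
  have hp' : (1:ℝ) ≤ p := by exact_mod_cast hp
  have hYC : ∀ i, b ≤ i → i < n → Y i ∈ F := by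
    intro i h1 h2
    rw [hn.y1 i h2]; exact st.mem hc h1
  have hYR' : ∀ i, P + b ≤ i → Y i ∈ F := by
    intro i h1
    obtain ⟨j, rfl⟩ : ∃ j, i = P + b + j := ⟨i - (P + b), by omega⟩
    rw [hn.code st.code]; exact hc.mem j
  by_contra hcon
  push Not at hcon
  set m0 := ⌊κ * p / 2⌋₊ + 1 with hm0
  have hm0a : κ * p / 2 < m0 := by
    rw [hm0]; push_cast; exact Nat.lt_floor_add_one _
  have hm0b : (m0:ℝ) ≤ κ * p / 2 + 1 := by
    rw [hm0]; push_cast
    have := Nat.floor_le (a := κ * p / 2) (by positivity)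
    linarith
  have hm0m : m0 ≤ m := by
    rw [hm0]
    have : ⌊κ * p / 2⌋₊ < m := by
      rw [Nat.floor_lt (by positivity)]
      exact hcon
    omega
  have hsame : ∀ i, i ≤ n → cns a' Y i = cns a' X i := by
    intro i hi
    rcases i with _ | i
    · rfl
    · rw [cns_succ, cns_succ, hn.y1 i (by omega)]
  by_cases d1 : p + m0 ≤ n + 1
  · have := st.low a' hX p m0 hp0 (by
      intro i hi
      rw [← hsame i (by omega), ← hsame (i+p) (by omega)]
      exact hrun i (by omega))
    linarith
  push Not at d1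
  have hκp : 60 * ((b:ℝ) + 2) ≤ κ * p := by
    have g1 : ((n + 2 : ℕ):ℝ) ≤ ((p + m0 : ℕ):ℝ) := by exact_mod_cast (by omega : n + 2 ≤ p + m0)
    push_cast at g1
    have g2 : κ * p / 2 ≤ p / 2 := by nlinarith
    have g3 : (n:ℝ) + 1 ≤ 3/2 * p := by linarith
    have g4 : κ * (n + 1) ≤ κ * (3/2 * p) := mul_le_mul_of_nonneg_left g3 hκ.le
    nlinarith
  have hεp : 4 * (ε * p) ≤ κ * p := by nlinarith
  have hpP : p ≠ P := by
    intro hpP
    have g1 := hrun 0 (by omega)
    rw [cns_zero, Nat.zero_add, cns_pos _ _ hp] at g1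
    have g2 : p - 1 = n + τ := by omega
    rw [g2, hn.ya] at g1
    rw [g1] at ha'
    exact hbl ha'
  set L' := m0 - 1 with hL'
  have hL1 : (m0:ℝ) = L' + 1 := by
    have : m0 = L' + 1 := by omega
    rw [this]; push_cast; ring
  have hrunY : ∀ i, i < L' → Y i = Y (i+p) := by
    intro i hi
    have g1 := hrun (i+1) (by omega)
    have e : i + 1 + p = (i + p) + 1 := by omega
    rw [e, cns_succ, cns_succ] at g1
    exact g1
  have hLb : b < L' := by
    have : (b:ℝ) < L' := by linarith
    exact_mod_cast this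
  have hbF : Y (b+p) ∈ F := by
    rw [← hrunY b hLb]; exact hYC b le_rfl (by omega)
  by_cases d2 : b + p < n
  · have g1 : L' + p ≤ n := by
      by_contra hcon2
      push Not at hcon2
      have g2 := hrunY (n - p) (by omega)
      apply hn.yT (n - p + p) (by omega) (by omega)
      rw [← g2]
      exact hYC _ (by omega) (by omega)
    have g2 : ((L' - b : ℕ):ℝ) ≤ ε * p := by
      apply hc.run 0 p _ hp
      intro t ht
      have g3 := hrunY (b + t) (by omega)
      rw [hn.y1 _ (by omega), hn.y1 _ (by omega), st.code] at g3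
      have e : b + t + p = b + (t + p) := by omega
      rw [e, st.code] at g3
      rw [Nat.zero_add]; exact g3
    rw [Nat.cast_sub hLb.le] at g2
    linarith
  · push Not at d2
    have d3 : n + τ ≤ b + p := by
      by_contra hcon2
      exact hn.yT (b+p) d2 (by omega) hbF
    have d4 : L' ≤ n := by
      by_contra hcon2
      push Not at hcon2
      have g2 := hrunY n hcon2
      apply hn.yT n le_rfl (by omega)
      rw [g2]
      exact hYR' _ (by omega)
    set i1 := max b (P + b - p) with hi1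
    have f1 : i1 ≤ 2 * b + 1 := by omega
    have f2 : P + b ≤ i1 + p := by omega
    have f3 : (L':ℝ) ≤ ((L' - i1 : ℕ):ℝ) + (2 * b + 1) := by
      exact_mod_cast (by omega : L' ≤ (L' - i1) + (2 * b + 1))
    have hY1 : ∀ t, t < L' - i1 → Y (i1 + t) = ζ (i1 + t - b) := by
      intro t ht
      rw [hn.y1 _ (by omega)]
      have : i1 + t = b + (i1 + t - b) := by omega
      rw [this, st.code]
      congr 1; omega
    have hY2 : ∀ t, t < L' - i1 → Y (i1 + t + p) = ζ (i1 + t + p - P - b) := by
      intro t ht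
      have : i1 + t + p = P + b + (i1 + t + p - P - b) := by omega
      rw [this, hn.code st.code]
      congr 1; omega
    rcases lt_or_gt_of_ne hpP with hlt | hgt
    · have g1 : ((L' - i1 : ℕ):ℝ) ≤ ε * ((P - p : ℕ):ℝ) := by
        apply hc.run (i1 + p - P - b) (P-p) _ (by omega)
        intro t ht
        have g2 := hrunY (i1 + t) (by omega)
        rw [hY1 t ht, hY2 t ht] at g2
        have e1 : i1 + p - P - b + t = i1 + t + p - P - b := by omega
        have e2 : i1 + p - P - b + t + (P - p) = i1 + t - b := by omega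
        rw [e2, e1]; exact g2.symm
      have g5 : ((P - p : ℕ):ℝ) ≤ b + 1 := by exact_mod_cast (by omega : P - p ≤ b + 1)
      have g6 : ε * ((P - p : ℕ):ℝ) ≤ ε * (b + 1) := mul_le_mul_of_nonneg_left g5 hε.le
      have g7 : ε * (b + 1) ≤ 1 * (b + 1) := by
        apply mul_le_mul_of_nonneg_right _ (by positivity)
        linarith
      linarith
    · have g1 : ((L' - i1 : ℕ):ℝ) ≤ ε * ((p - P : ℕ):ℝ) := by
        apply hc.run (i1 - b) (p-P) _ (by omega)
        intro t ht
        have g2 := hrunY (i1 + t) (by omega)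
        rw [hY1 t ht, hY2 t ht] at g2
        have e1 : i1 - b + t = i1 + t - b := by omega
        have e2 : i1 - b + t + (p - P) = i1 + t + p - P - b := by omega
        rw [e2, e1]; exact g2
      have g5 : ((p - P : ℕ):ℝ) ≤ p := by exact_mod_cast (by omega : p - P ≤ p)
      have g6 : ε * ((p - P : ℕ):ℝ) ≤ ε * p := mul_le_mul_of_nonneg_left g5 hε.le
      linarith

end H42PF
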